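import Pool.Agent.Lib.MP_db622c_co.PT.DTab

/-!
# PT-D11: a left factor of order 12 with two orthogonal squares

The group is `ZMod 11`; all conditions are finite and checked by the kernel.
-/

namespace Pool.Agent.Lib.MP_db622c_co.PT.D11

open Pool.Agent.Lib.MP_db622c_co Pool.Agent.Lib.MP_db622c_co.CB Pool.Agent.Lib.MP_db622c_co.PT

def Q (d : ZMod 11) : Bool := bb 11 570 d

def ch (d : ZMod 11) : ℤ := chiT Q d

def x0 : ZMod 11 := 2

def tau (d : ZMod 11) : ZMod 11 := tb 11 1251538377705915098267648 d

def x1 : ZMod 11 := 0

def sig (d : ZMod 11) : ZMod 11 := tb 11 4873519752617160822096640 d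

def zz (d : ZMod 11) : ZMod 11 := tb 11 4882945752861336641144320 d

def ee : ZMod 11 := 6

def ss : ZMod 11 := 9

def tt : ZMod 11 := 4

def x2 : ZMod 11 := 0

def tau2 (d : ZMod 11) : ZMod 11 := tb 11 2460464197320544272974080 d

def om (d : ZMod 11) : Bool := bb 11 174 d

def zg (d : ZMod 11) : ZMod 11 := tb 11 10894536876695144544339456 d

def eg : ZMod 11 := 2

def sg : ZMod 11 := 4

def tg : ZMod 11 := 6

def zm (d : ZMod 11) : ZMod 11 := tb 11 3636241289334841879560199 d

def em : ZMod 11 := 4

def sm : ZMod 11 := 6

def tm : ZMod 11 := 10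

theorem chi_ok : ChiOK ch := by
  exact chiOK_of_table 11 (by norm_num) (by norm_num) Q (by decide +kernel) (by decide +kernel)

theorem st_g : StOK x0 tau := by
  constructor <;> decide +kernel

theorem st_h : StOK x1 sig := by
  constructor <;> decide +kernel

theorem st_h2 : StOK x2 tau2 := by
  constructor <;> decide +kernel

theorem sep : SepOK ch x0 tau := by
  constructor <;> decide +kernel

theorem orr : OrOK x0 tau x1 sig := by
  constructor <;> decide +kernel

theorem sq_m : SqOK zz ee ss tt := by
  constructor <;> decide +kernel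

theorem sq_g : SqOK zg eg sg tg := by
  constructor <;> decide +kernel

theorem sq_p : SqOK zm em sm tm := by
  constructor <;> decide +kernel

theorem non : NonOK ch zz ee ss tt := by
  constructor <;> decide +kernel

theorem mg : MgOK x0 tau zg eg sg tg := by
  constructor <;> decide +kernel

theorem mm : MmOK zz ee ss tt zm em sm tm := by
  constructor <;> decide +kernel

theorem cf : CfOK x2 tau2 om zz ee ss tt := by
  constructor <;> decide +kernel

/-- a left factor of order `12` with two orthogonal squares -/
theorem hasJSP : HasJSP 12 :=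
  hasJSP_of (V := ZMod 11) (χ := ch) ⟨chi_ok, st_g, sep, st_h, orr, sq_m, non, st_h2, cf⟩ sq_g mg sq_p mm

end Pool.Agent.Lib.MP_db622c_co.PT.D11
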