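import Pool.Agent.Lib.MP_db622c_co.PT.DTab

/-!
# PT-D19: a left factor of order 20 with two orthogonal squares

The group is `ZMod 19`; all conditions are finite and checked by the kernel.
-/

namespace Pool.Agent.Lib.MP_db622c_co.PT.D19

open Pool.Agent.Lib.MP_db622c_co Pool.Agent.Lib.MP_db622c_co.CB Pool.Agent.Lib.MP_db622c_co.PT

def Q (d : ZMod 19) : Bool := bb 19 199410 d

def ch (d : ZMod 19) : ℤ := chiT Q d

def x0 : ZMod 19 := 0

def tau (d : ZMod 19) : ZMod 19 := tb 19 200972830231254786148132626012376120229431296 d

def x1 : ZMod 19 := 0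

def sig (d : ZMod 19) : ZMod 19 := tb 19 223098310098099554307164111274726002309335296 d

def zz (d : ZMod 19) : ZMod 19 := tb 19 379988910138223008938687493088910011980320256 d

def ee : ZMod 19 := 14

def ss : ZMod 19 := 9

def tt : ZMod 19 := 4

def x2 : ZMod 19 := 0

def tau2 (d : ZMod 19) : ZMod 19 := tb 19 46087854461763341891812066024668460861030656 d

def om (d : ZMod 19) : Bool := bb 19 19166 d

def zg (d : ZMod 19) : ZMod 19 := tb 19 45562809413588993488721008058510721646002176 d

def eg : ZMod 19 := 1

def sg : ZMod 19 := 10

def tg : ZMod 19 := 11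

def zm (d : ZMod 19) : ZMod 19 := tb 19 178673101912950295817704426271189760856949760 d

def em : ZMod 19 := 3

def sm : ZMod 19 := 6

def tm : ZMod 19 := 9

theorem chi_ok : ChiOK ch := by
  exact chiOK_of_table 19 (by norm_num) (by norm_num) Q (by decide +kernel) (by decide +kernel)

theorem st_g : StOK x0 tau := by
  constructor <;> decide +kernel

theorem st_h : StOK x1 sig := by
  constructor <;> decide +kernel

theorem st_h2 : StOK x2 tau2 := by
  constructor <;> decide +kernel

theorem sep : SepOK ch x0 tau := by
  constructor <;> decide +kernel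

theorem orr : OrOK x0 tau x1 sig := by
  constructor <;> decide +kernel

theorem sq_m : SqOK zz ee ss tt := by
  constructor <;> decide +kernel

theorem sq_g : SqOK zg eg sg tg := by
  constructor <;> decide +kernel

theorem sq_p : SqOK zm em sm tm := by
  constructor <;> decide +kernel

theorem non : NonOK ch zz ee ss tt := by
  constructor <;> decide +kernel

theorem mg : MgOK x0 tau zg eg sg tg := by
  constructor <;> decide +kernel

theorem mm : MmOK zz ee ss tt zm em sm tm := by
  constructor <;> decide +kernel

theorem cf : CfOK x2 tau2 om zz ee ss tt := by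
  constructor <;> decide +kernel

/-- a left factor of order `20` with two orthogonal squares -/
theorem hasJSP : HasJSP 20 :=
  hasJSP_of (V := ZMod 19) (χ := ch) ⟨chi_ok, st_g, sep, st_h, orr, sq_m, non, st_h2, cf⟩ sq_g mg sq_p mm

end Pool.Agent.Lib.MP_db622c_co.PT.D19
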