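import Pool.Agent.Lib.MP_db622c_co.PT.DTab

/-!
# PT-D23: a left factor of order 24 with two orthogonal squares

The group is `ZMod 23`; all conditions are finite and checked by the kernel.
-/

namespace Pool.Agent.Lib.MP_db622c_co.PT.D23

open Pool.Agent.Lib.MP_db622c_co Pool.Agent.Lib.MP_db622c_co.CB Pool.Agent.Lib.MP_db622c_co.PT

def Q (d : ZMod 23) : Bool := bb 23 340830 d

def ch (d : ZMod 23) : ℤ := chiT Q d

def x0 : ZMod 23 := 0

def tau (d : ZMod 23) : ZMod 23 := tb 23 1632399534155195461342944974172559946410894390721056768 d

def x1 : ZMod 23 := 0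

def sig (d : ZMod 23) : ZMod 23 := tb 23 1149764811320317077574255422529118067411325486336707328 d

def zz (d : ZMod 23) : ZMod 23 := tb 23 1439365813749501969015139364415539151472541286711689728 d

def ee : ZMod 23 := 4

def ss : ZMod 23 := 8

def tt : ZMod 23 := 12

def x2 : ZMod 23 := 0

def tau2 (d : ZMod 23) : ZMod 23 := tb 23 1149764811320317077574255422529118067411325486336707328 d

def om (d : ZMod 23) : Bool := bb 23 790478 d

def zg (d : ZMod 23) : ZMod 23 := tb 23 1443092608669354985174571120938322170839110786095647232 d

def eg : ZMod 23 := 5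

def sg : ZMod 23 := 11

def tg : ZMod 23 := 16

def zm (d : ZMod 23) : ZMod 23 := tb 23 670472651224351977333746684625790578416187938926563072 d

def em : ZMod 23 := 21

def sm : ZMod 23 := 16

def tm : ZMod 23 := 14

theorem chi_ok : ChiOK ch := by
  exact chiOK_of_table 23 (by norm_num) (by norm_num) Q (by decide +kernel) (by decide +kernel)

theorem st_g : StOK x0 tau := by
  constructor <;> decide +kernel

theorem st_h : StOK x1 sig := by
  constructor <;> decide +kernel

theorem st_h2 : StOK x2 tau2 := by
  constructor <;> decide +kernel

theorem sep : SepOK ch x0 tau := by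
  constructor <;> decide +kernel

theorem orr : OrOK x0 tau x1 sig := by
  constructor <;> decide +kernel

theorem sq_m : SqOK zz ee ss tt := by
  constructor <;> decide +kernel

theorem sq_g : SqOK zg eg sg tg := by
  constructor <;> decide +kernel

theorem sq_p : SqOK zm em sm tm := by
  constructor <;> decide +kernel

theorem non : NonOK ch zz ee ss tt := by
  constructor <;> decide +kernel

theorem mg : MgOK x0 tau zg eg sg tg := by
  constructor <;> decide +kernel

theorem mm : MmOK zz ee ss tt zm em sm tm := by
  constructor <;> decide +kernel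

theorem cf : CfOK x2 tau2 om zz ee ss tt := by
  constructor <;> decide +kernel

/-- a left factor of order `24` with two orthogonal squares -/
theorem hasJSP : HasJSP 24 :=
  hasJSP_of (V := ZMod 23) (χ := ch) ⟨chi_ok, st_g, sep, st_h, orr, sq_m, non, st_h2, cf⟩ sq_g mg sq_p mm

end Pool.Agent.Lib.MP_db622c_co.PT.D23
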