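import Pool.Agent.Lib.MP_db622c_co.PT.DTab

/-!
# PT-D27: a left factor of order 28 with two orthogonal squares

The group is `(ZMod 3) ^ 3`; all conditions are finite and checked by the kernel.
-/

namespace Pool.Agent.Lib.MP_db622c_co.PT.D27

open Pool.Agent.Lib.MP_db622c_co Pool.Agent.Lib.MP_db622c_co.CB Pool.Agent.Lib.MP_db622c_co.PT

/-- the group -/
abbrev V27 : Type := ZMod 3 × ZMod 3 × ZMod 3

/-- the number of an element -/
def ix (d : V27) : ℕ := d.1.val + 3 * d.2.1.val + 9 * d.2.2.val

/-- the element with a given number -/
def el (n : ℕ) : V27 := ((n : ℕ), ((n / 3 : ℕ), (n / 9 : ℕ)))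

/-- a function by its table -/
def tb27 (N : ℕ) (d : V27) : V27 := el ((N >>> (8 * ix d)) % 256)

/-- a Boolean function by its table -/
def bb27 (N : ℕ) (d : V27) : Bool := (N >>> ix d) % 2 == 1

def Q (d : V27) : Bool := bb27 38910914 d

def ch (d : V27) : ℤ := chiT Q d

def x0 : V27 := el 0

def tau (d : V27) : V27 := tb27 5785090536218085323991783096313019105492594804051487799522039296 d

def x1 : V27 := el 0

def sig (d : V27) : V27 := tb27 10736104290209390090280639838755114122905891386547328850516377856 d

def zz (d : V27) : V27 := tb27 4555713909146906868149926346932321540375995659494491260401287936 d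

def ee : V27 := el 3

def ss : V27 := el 22

def tt : V27 := el 25

def x2 : V27 := el 0

def tau2 (d : V27) : V27 := tb27 10736104290209390090280639838755114122905891386547328850516377856 d

def om (d : V27) : Bool := bb27 38910914 d

def zg (d : V27) : V27 := tb27 842104903029958014725210143278063361225713316781640677292769280 d

def eg : V27 := el 1

def sg : V27 := el 16

def tg : V27 := el 17

def zm (d : V27) : V27 := tb27 1669727968690556883861221328204135351421691002437571251882562816 d

def em : V27 := el 11

def sm : V27 := el 20

def tm : V27 := el 1

theorem chi_ok : ChiOK ch := by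
  refine ⟨?_, ?_, ?_, ?_⟩ <;> decide +kernel

set_option synthInstance.maxSize 2000 in
theorem st_g : StOK x0 tau := by
  constructor <;> decide +kernel

set_option synthInstance.maxSize 2000 in
theorem st_h : StOK x1 sig := by
  constructor <;> decide +kernel

set_option synthInstance.maxSize 2000 in
theorem st_h2 : StOK x2 tau2 := by
  constructor <;> decide +kernel

set_option synthInstance.maxSize 2000 in
theorem sep : SepOK ch x0 tau := by
  constructor <;> decide +kernel

set_option synthInstance.maxSize 2000 in
theorem orr : OrOK x0 tau x1 sig := by
  constructor <;> decide +kernel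

set_option synthInstance.maxSize 2000 in
theorem sq_m : SqOK zz ee ss tt := by
  constructor <;> decide +kernel

set_option synthInstance.maxSize 2000 in
theorem sq_g : SqOK zg eg sg tg := by
  constructor <;> decide +kernel

set_option synthInstance.maxSize 2000 in
theorem sq_p : SqOK zm em sm tm := by
  constructor <;> decide +kernel

set_option synthInstance.maxSize 2000 in
theorem non : NonOK ch zz ee ss tt := by
  constructor <;> decide +kernel

set_option synthInstance.maxSize 2000 in
theorem mg : MgOK x0 tau zg eg sg tg := by
  constructor <;> decide +kernel

set_option synthInstance.maxSize 2000 in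
theorem mm : MmOK zz ee ss tt zm em sm tm := by
  constructor <;> decide +kernel

set_option synthInstance.maxSize 2000 in
theorem cf : CfOK x2 tau2 om zz ee ss tt := by
  constructor <;> decide +kernel

/-- a left factor of order `28` with two orthogonal squares -/
theorem hasJSP : HasJSP 28 :=
  hasJSP_of (V := V27) (χ := ch) ⟨chi_ok, st_g, sep, st_h, orr, sq_m, non, st_h2, cf⟩ sq_g mg sq_p mm

end Pool.Agent.Lib.MP_db622c_co.PT.D27
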