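import Pool.Agent.Lib.MP_db622c_co.PT.DTab

/-!
# PT-D43: a left factor of order 44 with two orthogonal squares

The group is `ZMod 43`; all conditions are finite and checked by the kernel.
-/

namespace Pool.Agent.Lib.MP_db622c_co.PT.D43

open Pool.Agent.Lib.MP_db622c_co Pool.Agent.Lib.MP_db622c_co.CB Pool.Agent.Lib.MP_db622c_co.PT

def Q (d : ZMod 43) : Bool := bb 43 3678700564050 d

def ch (d : ZMod 43) : ℤ := chiT Q d

def x0 : ZMod 43 := 0

def tau (d : ZMod 43) : ZMod 43 := tb 43 4909342015276166193147957365920613878368657859922235611879250768005056934510116287911980455105102094848 d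

def x1 : ZMod 43 := 0

def sig (d : ZMod 43) : ZMod 43 := tb 43 3080244978347517641768626204776674598320496583438749331141206923479002959408306175704555201366948713728 d

def zz (d : ZMod 43) : ZMod 43 := tb 43 4772062096210113514481394100463681678681609499127810874612552454266199315839438186430081529683284986368 d

def ee : ZMod 43 := 6

def ss : ZMod 43 := 17

def tt : ZMod 43 := 23

def x2 : ZMod 43 := 0

def tau2 (d : ZMod 43) : ZMod 43 := tb 43 3080244978347517641768626204776674598320496583438749331141206923479002959408306175704555201366948713728 d

def om (d : ZMod 43) : Bool := bb 43 3678700564050 d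

def zg (d : ZMod 43) : ZMod 43 := tb 43 861238542681703318289849534385114356982990859435688622151161907210708714979577207199596510610338094080 d

def eg : ZMod 43 := 13

def sg : ZMod 43 := 18

def tg : ZMod 43 := 31

def zm (d : ZMod 43) : ZMod 43 := tb 43 1697341013895396376959356907490198674352572023278042393022365184230745605749550302669134833587772921856 d

def em : ZMod 43 := 31

def sm : ZMod 43 := 22

def tm : ZMod 43 := 10

theorem chi_ok : ChiOK ch := by
  exact chiOK_of_table 43 (by norm_num) (by norm_num) Q (by decide +kernel) (by decide +kernel)

theorem st_g : StOK x0 tau := by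
  constructor <;> decide +kernel

theorem st_h : StOK x1 sig := by
  constructor <;> decide +kernel

theorem st_h2 : StOK x2 tau2 := by
  constructor <;> decide +kernel

theorem sep : SepOK ch x0 tau := by
  constructor <;> decide +kernel

theorem orr : OrOK x0 tau x1 sig := by
  constructor <;> decide +kernel

theorem sq_m : SqOK zz ee ss tt := by
  constructor <;> decide +kernel

theorem sq_g : SqOK zg eg sg tg := by
  constructor <;> decide +kernel

theorem sq_p : SqOK zm em sm tm := by
  constructor <;> decide +kernel

theorem non : NonOK ch zz ee ss tt := by
  constructor <;> decide +kernel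

theorem mg : MgOK x0 tau zg eg sg tg := by
  constructor <;> decide +kernel

theorem mm : MmOK zz ee ss tt zm em sm tm := by
  constructor <;> decide +kernel

theorem cf : CfOK x2 tau2 om zz ee ss tt := by
  constructor <;> decide +kernel

/-- a left factor of order `44` with two orthogonal squares -/
theorem hasJSP : HasJSP 44 :=
  hasJSP_of (V := ZMod 43) (χ := ch) ⟨chi_ok, st_g, sep, st_h, orr, sq_m, non, st_h2, cf⟩ sq_g mg sq_p mm

end Pool.Agent.Lib.MP_db622c_co.PT.D43
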