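import Pool.Agent.Lib.MP_db622c_co.PT.DTab

/-!
# PT-D47: a left factor of order 48 with two orthogonal squares

The group is `ZMod 47`; all conditions are finite and checked by the kernel.
-/

namespace Pool.Agent.Lib.MP_db622c_co.PT.D47

open Pool.Agent.Lib.MP_db622c_co Pool.Agent.Lib.MP_db622c_co.CB Pool.Agent.Lib.MP_db622c_co.PT

def Q (d : ZMod 47) : Bool := bb 47 4626135339998 d

def ch (d : ZMod 47) : ℤ := chiT Q d

def x0 : ZMod 47 := 0

def tau (d : ZMod 47) : ZMod 47 := tb 47 19279205633022202485457805394165795348232922692074700440140169997407135062675296496929288479298190894781055311616 d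

def x1 : ZMod 47 := 0

def sig (d : ZMod 47) : ZMod 47 := tb 47 14432023596319919292242283614531918139888913367622390014885714648953519102250970587634909874301597179018388313856 d

def zz (d : ZMod 47) : ZMod 47 := tb 47 4847613219901467137253910135409862230714164450425340155065564415264414762911639691196341800961602449926412178176 d

def ee : ZMod 47 := 39

def ss : ZMod 47 := 17

def tt : ZMod 47 := 9

def x2 : ZMod 47 := 0

def tau2 (d : ZMod 47) : ZMod 47 := tb 47 14432023596319919292242283614531918139888913367622390014885714648953519102250970587634909874301597179018388313856 d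

def om (d : ZMod 47) : Bool := bb 47 4626135339998 d

def zg (d : ZMod 47) : ZMod 47 := tb 47 22316173932701515446994776069045257066024899452883185309038009500233495821838626210452980260703263053762355724544 d

def eg : ZMod 47 := 15

def sg : ZMod 47 := 42

def tg : ZMod 47 := 10

def zm (d : ZMod 47) : ZMod 47 := tb 47 24056186864115068670081699879099463657878172881782607057310112406265511251052059709261809428012243429737391138048 d

def em : ZMod 47 := 9

def sm : ZMod 47 := 28

def tm : ZMod 47 := 37

theorem chi_ok : ChiOK ch := by
  exact chiOK_of_table 47 (by norm_num) (by norm_num) Q (by decide +kernel) (by decide +kernel)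

theorem st_g : StOK x0 tau := by
  constructor <;> decide +kernel

theorem st_h : StOK x1 sig := by
  constructor <;> decide +kernel

theorem st_h2 : StOK x2 tau2 := by
  constructor <;> decide +kernel

theorem sep : SepOK ch x0 tau := by
  constructor <;> decide +kernel

theorem orr : OrOK x0 tau x1 sig := by
  constructor <;> decide +kernel

theorem sq_m : SqOK zz ee ss tt := by
  constructor <;> decide +kernel

theorem sq_g : SqOK zg eg sg tg := by
  constructor <;> decide +kernel

theorem sq_p : SqOK zm em sm tm := by
  constructor <;> decide +kernel

theorem non : NonOK ch zz ee ss tt := by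
  constructor <;> decide +kernel

theorem mg : MgOK x0 tau zg eg sg tg := by
  constructor <;> decide +kernel

theorem mm : MmOK zz ee ss tt zm em sm tm := by
  constructor <;> decide +kernel

theorem cf : CfOK x2 tau2 om zz ee ss tt := by
  constructor <;> decide +kernel

/-- a left factor of order `48` with two orthogonal squares -/
theorem hasJSP : HasJSP 48 :=
  hasJSP_of (V := ZMod 47) (χ := ch) ⟨chi_ok, st_g, sep, st_h, orr, sq_m, non, st_h2, cf⟩ sq_g mg sq_p mm

end Pool.Agent.Lib.MP_db622c_co.PT.D47
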