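import Pool.Agent.Lib.MP_db622c_co.PT.DTab

/-!
# PT-D59: a left factor of order 60 with two orthogonal squares

The group is `ZMod 59`; all conditions are finite and checked by the kernel.
-/

namespace Pool.Agent.Lib.MP_db622c_co.PT.D59

open Pool.Agent.Lib.MP_db622c_co Pool.Agent.Lib.MP_db622c_co.CB Pool.Agent.Lib.MP_db622c_co.PT

def Q (d : ZMod 59) : Bool := bb 59 156326468341437114 d

def ch (d : ZMod 59) : ℤ := chiT Q d

def x0 : ZMod 59 := 0

def tau (d : ZMod 59) : ZMod 59 := tb 59 2432714023476020611187580247089486056265110928372669262986167541820696194937276973727524992494675531098014141683434470850776372706562708353536 d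

def x1 : ZMod 59 := 0

def sig (d : ZMod 59) : ZMod 59 := tb 59 1429231687810444445180503781403890775638973001376584837931140516029825055236763277789922881773324361707265290064125714699558682872480035118336 d

def zz (d : ZMod 59) : ZMod 59 := tb 59 1010366952716160945960189752274613714098029486328024048141631486648807079549696638792589805527290242803936809955132288042701810024985534734336 d

def ee : ZMod 59 := 47

def ss : ZMod 59 := 16

def tt : ZMod 59 := 4

def x2 : ZMod 59 := 0

def tau2 (d : ZMod 59) : ZMod 59 := tb 59 1429231687810444445180503781403890775638973001376584837931140516029825055236763277789922881773324361707265290064125714699558682872480035118336 d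

def om (d : ZMod 59) : Bool := bb 59 18220056574 d

def zg (d : ZMod 59) : ZMod 59 := tb 59 1098219290733180690083705203441739875229094582289386157936747211018647546400870534952556913501667333119331846645689969900567765077314360849920 d

def eg : ZMod 59 := 53

def sg : ZMod 59 := 11

def tg : ZMod 59 := 5

def zm (d : ZMod 59) : ZMod 59 := tb 59 99368385341683568487033980860038473863556033435235986813713683519716415201982068136139207918517311855978760753635041447748334190325981256192 d

def em : ZMod 59 := 14

def sm : ZMod 59 := 34

def tm : ZMod 59 := 48

theorem chi_ok : ChiOK ch := by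
  exact chiOK_of_table 59 (by norm_num) (by norm_num) Q (by decide +kernel) (by decide +kernel)

theorem st_g : StOK x0 tau := by
  constructor <;> decide +kernel

theorem st_h : StOK x1 sig := by
  constructor <;> decide +kernel

theorem st_h2 : StOK x2 tau2 := by
  constructor <;> decide +kernel

theorem sep : SepOK ch x0 tau := by
  constructor <;> decide +kernel

theorem orr : OrOK x0 tau x1 sig := by
  constructor <;> decide +kernel

theorem sq_m : SqOK zz ee ss tt := by
  constructor <;> decide +kernel

theorem sq_g : SqOK zg eg sg tg := by
  constructor <;> decide +kernel

theorem sq_p : SqOK zm em sm tm := by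
  constructor <;> decide +kernel

theorem non : NonOK ch zz ee ss tt := by
  constructor <;> decide +kernel

theorem mg : MgOK x0 tau zg eg sg tg := by
  constructor <;> decide +kernel

theorem mm : MmOK zz ee ss tt zm em sm tm := by
  constructor <;> decide +kernel

theorem cf : CfOK x2 tau2 om zz ee ss tt := by
  constructor <;> decide +kernel

/-- a left factor of order `60` with two orthogonal squares -/
theorem hasJSP : HasJSP 60 :=
  hasJSP_of (V := ZMod 59) (χ := ch) ⟨chi_ok, st_g, sep, st_h, orr, sq_m, non, st_h2, cf⟩ sq_g mg sq_p mm

end Pool.Agent.Lib.MP_db622c_co.PT.D59
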