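import Pool.Agent.Lib.MP_db622c_co.PT.DTab

/-!
# PT-D67: a left factor of order 68 with two orthogonal squares

The group is `ZMod 67`; all conditions are finite and checked by the kernel.
-/

namespace Pool.Agent.Lib.MP_db622c_co.PT.D67

open Pool.Agent.Lib.MP_db622c_co Pool.Agent.Lib.MP_db622c_co.CB Pool.Agent.Lib.MP_db622c_co.PT

def Q (d : ZMod 67) : Bool := bb 67 61808106872519771730 d

def ch (d : ZMod 67) : ℤ := chiT Q d

def x0 : ZMod 67 := 0

def tau (d : ZMod 67) : ZMod 67 := tb 67 30981261210618179399249758309208810711720523771413082199577702181263424980262329188519591800804879291659494704750060986903833720016326227881105792313327922192896 d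

def x1 : ZMod 67 := 0

def sig (d : ZMod 67) : ZMod 67 := tb 67 29879501201112168153971447457165256902850417575029524101499012806956960215758478582243342078957810094952473649980281389806718313942709597136296174007064478228736 d

def zz (d : ZMod 67) : ZMod 67 := tb 67 22956528890781988786949083036443084805656864165866680301104812361147759440932533867315906143191882680785720170687416436702713482889237857924266715532930434675456 d

def ee : ZMod 67 := 52

def ss : ZMod 67 := 55

def tt : ZMod 67 := 40

def x2 : ZMod 67 := 0

def tau2 (d : ZMod 67) : ZMod 67 := tb 67 29879501201112168153971447457165256902850417575029524101499012806956960215758478582243342078957810094952473649980281389806718313942709597136296174007064478228736 d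

def om (d : ZMod 67) : Bool := bb 67 47244640254 d

def zg (d : ZMod 67) : ZMod 67 := tb 67 24614228422380968581301538412234832370762361916218533074017172315981237618137438664764628637976283218263752640977606428627161272649338941409651015398885284511744 d

def eg : ZMod 67 := 1

def sg : ZMod 67 := 32

def tg : ZMod 67 := 33

def zm (d : ZMod 67) : ZMod 67 := tb 67 36209127772023375632642859719878523098040573174088667628927045982873188619189937474877687676005686223136950065101392211593992133399884245021834967129468122113536 d

def em : ZMod 67 := 15

def sm : ZMod 67 := 5

def tm : ZMod 67 := 20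

theorem chi_ok : ChiOK ch := by
  exact chiOK_of_table 67 (by norm_num) (by norm_num) Q (by decide +kernel) (by decide +kernel)

theorem st_g : StOK x0 tau := by
  constructor <;> decide +kernel

theorem st_h : StOK x1 sig := by
  constructor <;> decide +kernel

theorem st_h2 : StOK x2 tau2 := by
  constructor <;> decide +kernel

theorem sep : SepOK ch x0 tau := by
  constructor <;> decide +kernel

theorem orr : OrOK x0 tau x1 sig := by
  constructor <;> decide +kernel

theorem sq_m : SqOK zz ee ss tt := by
  constructor <;> decide +kernel

theorem sq_g : SqOK zg eg sg tg := by
  constructor <;> decide +kernel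

theorem sq_p : SqOK zm em sm tm := by
  constructor <;> decide +kernel

theorem non : NonOK ch zz ee ss tt := by
  constructor <;> decide +kernel

theorem mg : MgOK x0 tau zg eg sg tg := by
  constructor <;> decide +kernel

theorem mm : MmOK zz ee ss tt zm em sm tm := by
  constructor <;> decide +kernel

theorem cf : CfOK x2 tau2 om zz ee ss tt := by
  constructor <;> decide +kernel

/-- a left factor of order `68` with two orthogonal squares -/
theorem hasJSP : HasJSP 68 :=
  hasJSP_of (V := ZMod 67) (χ := ch) ⟨chi_ok, st_g, sep, st_h, orr, sq_m, non, st_h2, cf⟩ sq_g mg sq_p mm

end Pool.Agent.Lib.MP_db622c_co.PT.D67
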