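import Pool.Agent.Lib.MP_db622c_co.PT.TIEnd
import Pool.Agent.Lib.MP_db622c_co.CB.PaleyBase

/-!
# PT-DTab: tables
-/

namespace Pool.Agent.Lib.MP_db622c_co.PT

open Pool.Agent.Lib.MP_db622c_co Pool.Agent.Lib.MP_db622c_co.CB

/-- a function on `ZMod q` with the values the base `256` digits of `N` -/
def tb (q : ℕ) (N : ℕ) (d : ZMod q) : ZMod q := (((N >>> (8 * d.val)) % 256 : ℕ) : ZMod q)

/-- a Boolean function on `ZMod q` with the values the binary digits of `N` -/
def bb (q : ℕ) (N : ℕ) (d : ZMod q) : Bool := (N >>> d.val) % 2 == 1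

/-- the sign function of a set -/
def chiT {V : Type} [Zero V] [DecidableEq V] (Q : V → Bool) (x : V) : ℤ :=
  if x = 0 then 0 else if Q x then 1 else -1

theorem chiOK_of_table (q : ℕ) [NeZero q] (hp : q.Prime) (h4 : q % 4 = 3) (Q : ZMod q → Bool)
    (h1 : ∀ x, x ≠ 0 → Q (x * x) = true) (h2 : ∀ x, x ≠ 0 → Q (-x) = !(Q x)) :
    ChiOK (chiT Q) := by
  have : Fact q.Prime := ⟨hp⟩
  have h3 : Fintype.card (ZMod q) % 4 = 3 := by rw [ZMod.card]; exact h4
  have key : ∀ x : ZMod q, chiT Q x = quadraticChar (ZMod q) x := by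
    have sq : ∀ x : ZMod q, x ≠ 0 → quadraticChar (ZMod q) x = 1 → Q x = true := by
      intro x hx hχ
      obtain ⟨y, rfl⟩ := (quadraticChar_one_iff_isSquare hx).1 hχ
      exact h1 y (fun hy => hx (by rw [hy, zero_mul]))
    intro x
    unfold chiT
    by_cases hx : x = 0
    · rw [if_pos hx, hx, MulChar.map_zero]
    · rw [if_neg hx]
      rcases quadraticChar_dichotomy hx with h | h
      · rw [if_pos (sq x hx h), h]
      · have h5 : quadraticChar (ZMod q) (-x) = 1 := by rw [pb_chi_neg h3, h]; norm_num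
        have h6 := sq (-x) (neg_ne_zero.2 hx) h5
        rw [h2 x hx] at h6
        have h7 : Q x = false := by simpa using h6
        rw [if_neg (by rw [h7]; exact Bool.false_ne_true), h]
  refine ⟨?_, ?_, ?_, ?_⟩
  · rw [key, MulChar.map_zero]
  · intro x hx
    rw [key]
    exact quadraticChar_dichotomy hx
  · intro x
    rw [key, key, pb_chi_neg h3]
  · intro c hc
    rw [Finset.sum_congr rfl (fun z _ => by rw [key, key])]
    exact pb_corr h3 hc

end Pool.Agent.Lib.MP_db622c_co.PT
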