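import Pool.Agent.Lib.MP_db622c_co.CB.Tens
import Pool.Agent.Lib.MP_db622c_co.CB.ToCBHR

/-!
# MP_db622c_co, board PT: the product theorem: definitions

`FS`: a normalised Hadamard matrix with a sign compatible one-factorization `g` (`0` on the
diagonal), an orthogonal one-factorization `r` and a Latin square `P` orthogonal to `g`.
`JS`: a left factor: sign compatible `g`, orthogonal `h`, a Latin square `M` whose entries do
not separate, with pairwise distinct diagonal entries, a one-factorization `h2` and a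
tournament `o` such that two cells of `M` with the same entry and the same class in `h2` are
oriented differently.
-/

namespace Pool.Agent.Lib.MP_db622c_co.PT

open Pool.Agent.Lib.MP_db622c_co Pool.Agent.Lib.MP_db622c_co.CB

/-- `P` is a Latin square (injectivity of rows and columns). -/
structure IsLat {J T : Type} (P : J → J → T) : Prop where
  row : ∀ x y y', P x y = P x y' → y = y'
  col : ∀ x x' y, P x y = P x' y → x = x'

/-- two squares are orthogonal -/
def IsMate {J T U : Type} (M : J → J → T) (P : J → J → U) : Prop :=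
  ∀ x y x' y', M x y = M x' y' → P x y = P x' y' → x = x' ∧ y = y'

/-- a full structure -/
structure FS {A J M T : Type} [Zero A] [Zero M] [Fintype J] (S : A → J → ℤ) (g : J → J → A)
    (r : J → J → M) (P : J → J → T) : Prop where
  isH : IsH S
  of_g : IsOF g
  diag : ∀ j, g j j = 0
  split : IsSplit S g
  of_r : IsOF r
  orth : IsOrth g r
  lat : IsLat P
  mate : IsMate g P

/-- a left factor -/
structure JS {A J N : Type} [Zero A] [Zero N] [Fintype J] (S : A → J → ℤ) (g : J → J → A)
    (h : J → J → N) (M : J → J → A) (h2 : J → J → N) (o : J → J → Bool) : Prop where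
  isH : IsH S
  of_g : IsOF g
  diag : ∀ j, g j j = 0
  split : IsSplit S g
  of_h : IsOF h
  orth : IsOrth g h
  lat : IsLat M
  nonsep : ∀ x y, S (M x y) x = S (M x y) y
  mdiag : ∀ x y, M x x = M y y → x = y
  of_h2 : IsOF h2
  anti : ∀ x y, x ≠ y → o y x = !(o x y)
  conf : ∀ x y x' y', x ≠ y → x' ≠ y' → M x y = M x' y' → h2 x y = h2 x' y' →
    o x y = o x' y' → x = x' ∧ y = y'

/-- There is a full structure of order `n`. -/
def HasFS (n : ℕ) : Prop :=
  ∃ (A J M T : Type) (_ : Zero A) (_ : Zero M) (_ : Fintype A) (_ : Fintype J) (_ : Fintype M)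
    (_ : Fintype T) (S : A → J → ℤ) (g : J → J → A) (r : J → J → M) (P : J → J → T),
    Fintype.card A = n ∧ Fintype.card J = n ∧ Fintype.card M = n ∧ Fintype.card T = n ∧
      FS S g r P

/-- There is a left factor of order `n`. -/
def HasJS (n : ℕ) : Prop :=
  ∃ (A J N : Type) (_ : Zero A) (_ : Zero N) (_ : Fintype A) (_ : Fintype J) (_ : Fintype N)
    (S : A → J → ℤ) (g : J → J → A) (h : J → J → N) (M : J → J → A) (h2 : J → J → N)
    (o : J → J → Bool),
    Fintype.card A = n ∧ Fintype.card J = n ∧ Fintype.card N = n ∧ JS S g h M h2 o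

/-- There is a left factor of order `n` with Latin squares orthogonal to `g` and to `M`. -/
def HasJSP (n : ℕ) : Prop :=
  ∃ (A J N T : Type) (_ : Zero A) (_ : Zero N) (_ : Fintype A) (_ : Fintype J) (_ : Fintype N)
    (_ : Fintype T)
    (S : A → J → ℤ) (g : J → J → A) (h : J → J → N) (M : J → J → A) (h2 : J → J → N)
    (o : J → J → Bool) (PG PM : J → J → T),
    Fintype.card A = n ∧ Fintype.card J = n ∧ Fintype.card N = n ∧ Fintype.card T = n ∧
      JS S g h M h2 o ∧ IsLat PG ∧ IsMate g PG ∧ IsLat PM ∧ IsMate M PM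

section product

variable {A J N B Y R T U : Type} [Zero A] [Zero N] [Zero B] [Zero R] [Fintype J] [Fintype Y]

/-- the tensor product of two sign matrices -/
def SS (S : A → J → ℤ) (S' : B → Y → ℤ) (a : A × B) (x : J × Y) : ℤ := S a.1 x.1 * S' a.2 x.2

open Classical in
/-- the boards of the product -/
noncomputable def GG (g : J → J → A) (M : J → J → A) (S' : B → Y → ℤ) (g' : Y → Y → B)
    (p q : J × Y) : A × B :=
  if p.2 = q.2 then (g p.1 q.1, 0)
  else if S' (g' p.2 q.2) p.2 = 1 then (M p.1 q.1, g' p.2 q.2)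
  else (M q.1 p.1, g' p.2 q.2)

open Classical in
/-- the class of a pair of the left factor in the rounds -/
noncomputable def hq (h h2 : J → J → N) (p q : J × Y) : N :=
  if p.2 = q.2 then h p.1 q.1 else h2 p.1 q.1

/-- the second component of the round -/
def pq (o : J → J → Bool) (P : Y → Y → T) (p q : J × Y) : T :=
  if o p.1 q.1 then P p.2 q.2 else P q.2 p.2

open Classical in
/-- the rounds of the product (with values in `R ⊕ N × T`; for `p.1 ≠ q.1` the `N` component
is not zero) -/
noncomputable def RR0 (h h2 : J → J → N) (o : J → J → Bool) (r : Y → Y → R) (P : Y → Y → T)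
    (p q : J × Y) : R ⊕ N × T :=
  if p.1 = q.1 then Sum.inl (r p.2 q.2) else Sum.inr (hq h h2 p q, pq o P p q)

open Classical in
/-- the rounds of the product -/
noncomputable def RR (z0 : {z : N // z ≠ 0}) (h h2 : J → J → N) (o : J → J → Bool)
    (r : Y → Y → R) (P : Y → Y → T) (p q : J × Y) : R ⊕ {z : N // z ≠ 0} × T :=
  if p.1 = q.1 then Sum.inl (r p.2 q.2)
  else if hz : hq h h2 p q ≠ 0 then Sum.inr (⟨hq h h2 p q, hz⟩, pq o P p q)
  else Sum.inr (z0, pq o P p q)

/-- the zero of the set of rounds -/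
@[reducible] def zR (R N T : Type) [Zero R] [Zero N] : Zero (R ⊕ {z : N // z ≠ 0} × T) :=
  ⟨Sum.inl 0⟩

open Classical in
/-- the Latin square of the product -/
noncomputable def PP (PG PM : J → J → U) (S' : B → Y → ℤ) (g' : Y → Y → B) (P : Y → Y → T)
    (p q : J × Y) : U × T :=
  (if p.2 = q.2 then PG p.1 q.1
    else if S' (g' p.2 q.2) p.2 = 1 then PM p.1 q.1 else PM q.1 p.1, P p.2 q.2)

end product

/-! ### translation invariant structures -/

/-- rows -/
def Rw (V : Type) : Type := Option V

instance (V : Type) : Zero (Rw V) := ⟨none⟩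
instance (V : Type) [Fintype V] : Fintype (Rw V) := inferInstanceAs (Fintype (Option V))

section ti

variable {V : Type} [AddCommGroup V] [DecidableEq V]

/-- the signs of the row `0` (finite columns) -/
def chi1 (χ : V → ℤ) (z : V) : ℤ := if z = 0 then -1 else χ z

/-- the sign matrix -/
def SV (χ : V → ℤ) : Rw V → Option V → ℤ
  | none, _ => 1
  | some _, none => 1
  | some a, some x => chi1 χ (x - a)

/-- the one-factorization with the starter pairs `{x0, ∞}`, `{τ d, τ d + d}` -/
def ofV (x0 : V) (τ : V → V) : Option V → Option V → Rw V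
  | none, none => none
  | none, some y => some (y - x0)
  | some x, none => some (x - x0)
  | some x, some y => if x = y then none else some (x - τ (y - x))

/-- the square in which the class `0` has the cells `(z d, z d + d)`, `d ≠ e`, `(s, ∞)`, `(∞, t)` and
the class `∞` has the cells `(x, x + e)`, `(∞, ∞)` -/
def sqV (z : V → V) (e s t : V) : Option V → Option V → Rw V
  | none, none => none
  | none, some y => some (y - t)
  | some x, none => some (x - s)
  | some x, some y => if y - x = e then none else some (x - z (y - x))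

/-- the orientation -/
def orV (ω : V → Bool) : Option V → Option V → Bool
  | none, _ => false
  | some _, none => true
  | some x, some y => ω (y - x)

/-- conditions on the signs -/
structure ChiOK [Fintype V] (χ : V → ℤ) : Prop where
  zero : χ 0 = 0
  one : ∀ x, x ≠ 0 → χ x = 1 ∨ χ x = -1
  neg : ∀ x, χ (-x) = - χ x
  corr : ∀ c, c ≠ 0 → ∑ z : V, χ z * χ (z + c) = -1

/-- conditions on a starter -/
structure StOK (x0 : V) (τ : V → V) : Prop where
  neg : ∀ d, d ≠ 0 → τ (-d) = τ d + d
  inj : ∀ d d', d ≠ 0 → d' ≠ 0 → τ d = τ d' → d = d'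
  ne : ∀ d, d ≠ 0 → τ d ≠ x0

/-- the starter separates -/
structure SepOK (χ : V → ℤ) (x0 : V) (τ : V → V) : Prop where
  inf : chi1 χ x0 = -1
  fin : ∀ d, d ≠ 0 → chi1 χ (τ d + d) = - chi1 χ (τ d)

/-- two starters are orthogonal -/
structure OrOK (x0 : V) (τ : V → V) (x1 : V) (σ : V → V) : Prop where
  inf : ∀ d, d ≠ 0 → τ d - σ d ≠ x0 - x1
  fin : ∀ d d', d ≠ 0 → d' ≠ 0 → τ d - σ d = τ d' - σ d' → d' = d ∨ d' = -d

/-- conditions on a square -/
structure SqOK (z : V → V) (e s t : V) : Prop where
  e0 : e ≠ 0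
  inj : ∀ d d', d ≠ e → d' ≠ e → z d = z d' → d = d'
  inj' : ∀ d d', d ≠ e → d' ≠ e → z d + d = z d' + d' → d = d'
  ns : ∀ d, d ≠ e → z d ≠ s
  nt : ∀ d, d ≠ e → z d + d ≠ t

/-- the square does not separate -/
structure NonOK (χ : V → ℤ) (z : V → V) (e s t : V) : Prop where
  s1 : chi1 χ s = 1
  t1 : chi1 χ t = 1
  fin : ∀ d, d ≠ e → chi1 χ (z d + d) = chi1 χ (z d)

/-- the square `(z, e, s, t)` is orthogonal to the one-factorization `(x0, τ)` -/
structure MgOK (x0 : V) (τ : V → V) (z : V → V) (e s t : V) : Prop where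
  st : s ≠ t
  inj : ∀ d d', d ≠ 0 → d' ≠ 0 → d ≠ e → d' ≠ e → τ d - z d = τ d' - z d' → d = d'
  ns : ∀ d, d ≠ 0 → d ≠ e → τ d - z d ≠ x0 - s
  nt : ∀ d, d ≠ 0 → d ≠ e → τ d - z d ≠ x0 - t

/-- the square `(z, e, s, t)` is orthogonal to the square `(z', e', s', t')` -/
structure MmOK (z' : V → V) (e' s' t' : V) (z : V → V) (e s t : V) : Prop where
  ee : e' ≠ e
  st : s' - s ≠ t' - t
  inj : ∀ d d', d ≠ e' → d' ≠ e' → d ≠ e → d' ≠ e → z' d - z d = z' d' - z d' → d = d'
  ns : ∀ d, d ≠ e' → d ≠ e → z' d - z d ≠ s' - s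
  nt : ∀ d, d ≠ e' → d ≠ e → z' d - z d ≠ t' - t

/-- the conflicts of the square `(z, e, s, t)` and the one-factorization `(x0, τ)` are oriented
differently -/
structure CfOK (x0 : V) (τ : V → V) (ω : V → Bool) (z : V → V) (e s t : V) : Prop where
  anti : ∀ d, d ≠ 0 → ω (-d) = !(ω d)
  inj : ∀ d d', d ≠ 0 → d' ≠ 0 → d ≠ e → d' ≠ e → z d - τ d = z d' - τ d' → ω d = ω d' → d = d'
  ns : ∀ d, d ≠ 0 → d ≠ e → z d - τ d = s - x0 → ω d = false
  nt : ∀ d, d ≠ 0 → d ≠ e → z d - τ d = t - x0 → ω d = true

end ti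

end Pool.Agent.Lib.MP_db622c_co.PT
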