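import Pool.Agent.Lib.MP_db622c_co.PT.Defs
import Pool.Agent.Lib.MP_db622c_co.CB.QuadEx

/-!
# PT-KFS: full structures of order `2 ^ e`, `e ≥ 3`

`K` a field with `2 ^ e` elements (`GaloisField 2 e`), `φ : K →+ ZMod 2` additive with `φ c = 1`
for some `c` (a nonzero functional).  Rows, columns, classes, symbols: `K`.
* `S a x = sg (φ (a * x))`: `IsH` from `sum_sg_gen` (`CB/Tens.lean`; compare `isH_tens`).
* `g x y = c / (x + y)` (`0` on the diagonal, as `c / 0 = 0`): `IsOF`; split:
  `S (g x y) y = sg (φ (c / (x + y) * (x + (x + y)))) = sg (φ (c / (x + y) * x) + φ c)`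
  `= - S (g x y) x` (`sg_add_one`).
* `r` an orthogonal one-factorization: from `mate_galois` / `mate_of_card` (`CB/QuadEx.lean`,
  `Mate` in `Mate.lean`): it gives a one-factorization of `K` orthogonal to the one with the
  classes `x + y`; `c / (x + y)` determines `x + y`.
* `P x y = x + t * (x + y)`, `t ≠ 0, 1`: `P x y = P x y'` gives `y = y'` (`t ≠ 0`);
  `P x y = (1 + t) x + t y` gives column injectivity (`t ≠ 1`); mate: `g` gives `x + y`, `P` gives `x`.
-/

namespace Pool.Agent.Lib.MP_db622c_co.PT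

open Pool.Agent.Lib.MP_db622c_co Pool.Agent.Lib.MP_db622c_co.CB

section

variable {K : Type} [Field K]

private theorem kfs_div_inj {c u v : K} (hc : c ≠ 0) (h : c / u = c / v) : u = v := by
  rw [div_eq_mul_inv, div_eq_mul_inv] at h
  exact inv_injective (mul_left_cancel₀ hc h)

private theorem kfs_isH [CharP K 2] [Fintype K] (φ : K →+ ZMod 2) (c : K) (hc : φ c = 1) :
    IsH (fun a x : K => sg (φ (a * x))) := by
  refine ⟨fun a x => sg_cases _, fun x => ?_, fun a b hab => ?_⟩
  · simp [sg]
  · have h1 : ∀ x : K, sg (φ (a * x)) * sg (φ (b * x)) = sg (φ ((a + b) * x)) := by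
      intro x
      rw [add_mul, map_add, sg_add]
    rw [Finset.sum_congr rfl (fun x _ => h1 x)]
    exact sum_sg_gen φ c hc _ fun h2 => hab (eq_of_add_eq_zero h2)

private theorem kfs_isOF [CharP K 2] {c : K} (hc : c ≠ 0) : IsOF (fun x y : K => c / (x + y)) := by
  refine ⟨fun x y hxy => ?_, fun x y => ?_, fun x y y' _ _ h => ?_⟩
  · exact div_ne_zero hc fun h => hxy (eq_of_add_eq_zero h)
  · show c / (x + y) = c / (y + x)
    rw [add_comm]
  · exact add_left_cancel (kfs_div_inj hc h)

private theorem kfs_split [CharP K 2] (φ : K →+ ZMod 2) (c : K) (hc : φ c = 1) :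
    IsSplit (fun a x : K => sg (φ (a * x))) (fun x y : K => c / (x + y)) := by
  intro x y hxy
  have h0 : x + y ≠ 0 := fun h => hxy (eq_of_add_eq_zero h)
  have h1 : c / (x + y) * y = c / (x + y) * x + c := by
    have h2 : c / (x + y) * (x + (x + y)) = c / (x + y) * x + c := by
      rw [mul_add, div_mul_cancel₀ c h0]
    rwa [CB.add_add_self] at h2
  show sg (φ (c / (x + y) * y)) = - sg (φ (c / (x + y) * x))
  rw [h1, map_add, hc, sg_add_one]

end

theorem hasFS_two_pow (e : ℕ) (he : 3 ≤ e) : HasFS (2 ^ e) := by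
  obtain ⟨K, _, _, _, φ, c, hK, hc0, hc1, _, hφ⟩ := exists_func e (by omega)
  obtain ⟨r, hr0, hrs, hri, hro⟩ := mate_of_card e he hK
  refine ⟨K, K, K, K, inferInstance, inferInstance, inferInstance, inferInstance, inferInstance,
    inferInstance, fun a x => sg (φ (a * x)), fun x y => c / (x + y), r,
    fun x y => x + c * (x + y), hK, hK, hK, hK, ?_⟩
  refine ⟨kfs_isH φ c hφ, kfs_isOF hc0, fun j => ?_, kfs_split φ c hφ, ⟨hr0, hrs, hri⟩, ?_, ?_, ?_⟩
  · show c / (j + j) = 0
    rw [add_self, div_zero]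
  · intro j k j' k' hjk _ h1 h2
    have h3 : j + k = j' + k' := kfs_div_inj hc0 h1
    have h4 : j + k ≠ 0 := fun h => hjk (eq_of_add_eq_zero h)
    have h5 : j + (j + k) = k := CB.add_add_self j k
    have h6 : j' + (j + k) = k' := by rw [h3]; exact CB.add_add_self j' k'
    rcases hro (j + k) h4 j j' (by rw [h5, h6]; exact h2) with h | h
    · exact Or.inl h
    · exact Or.inr (h.trans h5)
  · refine ⟨fun x y y' h => ?_, fun x x' y h => ?_⟩
    · exact add_left_cancel (mul_left_cancel₀ hc0 (add_left_cancel h))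
    · have h1 : (1 + c) * x = (1 + c) * x' := by
        have h2 : x + c * (x + y) = x' + c * (x' + y) := h
        linear_combination h2
      exact mul_left_cancel₀ (fun h3 => hc1 (eq_of_add_eq_zero h3).symm) h1
  · intro x y x' y' h1 h2
    have h3 : x + y = x' + y' := kfs_div_inj hc0 h1
    have h4 : x + c * (x + y) = x' + c * (x' + y') := h2
    rw [h3] at h4
    have h5 : x = x' := add_right_cancel h4
    refine ⟨h5, ?_⟩
    rw [h5] at h3
    exact add_left_cancel h3

end Pool.Agent.Lib.MP_db622c_co.PT
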