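import Mathlib

/-!
# PT-Nov: infinitely many primes `p ≡ 3 (mod 4)` for which `c * (p + 1)` is not of the form
`2 ^ j * (q + 1)` with `q` an odd prime power

(`c` any positive number that is not a power of two.)
-/

namespace Pool.Agent.Lib.MP_db622c_co.PT

/-- `r` divides `x` exactly once and `x > r`: `x` is not a prime power -/
private theorem not_pp (x r : ℕ) (hr : r.Prime) (hx : r < x) (h0 : r ∣ x)
    (h1 : ¬ r * r ∣ x) : ¬ IsPrimePow x := by
  intro hpow
  obtain ⟨s, c, hs, hc, hsc⟩ := (isPrimePow_nat_iff _).1 hpow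
  have hd : r ∣ s ^ c := by rw [hsc]; exact h0
  have hrs : r = s := (Nat.prime_dvd_prime_iff_eq hr hs).1 (hr.dvd_of_dvd_pow hd)
  subst hrs
  have hc2 : 2 ≤ c := by
    by_contra hc2
    have h : c = 1 := by omega
    rw [h, pow_one] at hsc
    omega
  apply h1
  obtain ⟨d, rfl⟩ : ∃ d, c = d + 2 := ⟨c - 2, by omega⟩
  rw [← hsc, pow_add, sq]
  exact Dvd.intro_left _ rfl

/-- one congruence -/
private theorem exists_res (r c : ℕ) (hr : r.Prime) (hr2 : 2 < r) (hc1 : 1 ≤ c) (hcr : c < r)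
    (hc2 : c ≠ 2) :
    ∃ a : ℕ, Nat.Coprime a (r * r) ∧ c * (a + 1) ≡ 2 * (1 + r) [MOD r * r] := by
  have hco0 : Nat.Coprime c r := by
    rw [Nat.coprime_comm, hr.coprime_iff_not_dvd]
    intro hd
    exact absurd (Nat.le_of_dvd (by omega) hd) (by omega)
  have hco : Nat.Coprime c (r * r) := Nat.Coprime.mul_right hco0 hco0
  have hrr : 1 < r * r := by nlinarith [hr.two_le]
  obtain ⟨b, hb⟩ := Nat.exists_mul_mod_eq_one_of_coprime hco hrr
  have hb' : c * b ≡ 1 [MOD r * r] := by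
    unfold Nat.ModEq
    rw [hb.2, Nat.mod_eq_of_lt hrr]
  set a : ℕ := b * (2 * (1 + r)) + (r * r - 1) with ha
  have hc1 : a + 1 ≡ b * (2 * (1 + r)) [MOD r * r] := by
    have h : a + 1 = b * (2 * (1 + r)) + r * r := by omega
    rw [h]
    exact Nat.add_modEq_right
  have hc3 : c * (a + 1) ≡ 2 * (1 + r) [MOD r * r] := by
    calc c * (a + 1) ≡ c * (b * (2 * (1 + r))) [MOD r * r] := hc1.mul_left _
      _ = c * b * (2 * (1 + r)) := by ring
      _ ≡ 1 * (2 * (1 + r)) [MOD r * r] := hb'.mul_right _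
      _ = 2 * (1 + r) := by ring
  refine ⟨a, ?_, hc3⟩
  have har : Nat.Coprime a r := by
    rw [Nat.coprime_comm, hr.coprime_iff_not_dvd]
    intro hd
    have h1 : c * (a + 1) ≡ 2 * (1 + r) [MOD r] := hc3.of_mul_right r
    have h3 : c * (a + 1) ≡ c [MOD r] := by
      have h4 : a + 1 ≡ 0 + 1 [MOD r] := ((Nat.modEq_zero_iff_dvd).2 hd).add_right 1
      have h5 := h4.mul_left c
      simpa using h5
    have h4 : c ≡ 2 [MOD r] := by
      have h5 : 2 * (1 + r) ≡ 2 * 1 [MOD r] := Nat.ModEq.mul_left 2 Nat.add_modEq_right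
      exact h3.symm.trans (h1.trans h5)
    exact hc2 (Nat.ModEq.eq_of_lt_of_lt h4 hcr hr2)
  exact Nat.Coprime.mul_right har har

private theorem exists_mod (cs : List ℕ) (h : ∀ c ∈ cs, 1 ≤ c ∧ c ≠ 2) :
    ∃ M a : ℕ, 0 < M ∧ Nat.Coprime a M ∧ 8 ∣ M ∧ a % 8 = 3 ∧
      ∀ c ∈ cs, ∃ r : ℕ, r.Prime ∧ 2 < r ∧ r * r ∣ M ∧
        c * (a + 1) ≡ 2 * (1 + r) [MOD r * r] := by
  induction cs with
  | nil =>
    refine ⟨8, 3, by norm_num, by norm_num, dvd_refl 8, by norm_num, ?_⟩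
    intro c hc
    exact absurd hc (List.not_mem_nil)
  | cons c cs ih =>
    obtain ⟨M, a, hM, ha, h8, ha8, hres⟩ := ih (fun c' hc' => h c' (List.mem_cons_of_mem _ hc'))
    obtain ⟨hc1, hc2⟩ := h c (List.mem_cons_self)
    obtain ⟨r, hge, hr⟩ := Nat.exists_infinite_primes (M + c + 3)
    obtain ⟨b, hb, hb'⟩ := exists_res r c hr (by omega) hc1 (by omega) hc2
    have hrM : ¬ r ∣ M := by
      intro hd
      exact absurd (Nat.le_of_dvd hM hd) (by omega)
    have hcoM : Nat.Coprime M (r * r) := by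
      have h : Nat.Coprime M r := ((hr.coprime_iff_not_dvd).2 hrM).symm
      exact Nat.Coprime.mul_right h h
    obtain ⟨d, hdM, hdr⟩ := Nat.chineseRemainder hcoM a b
    refine ⟨M * (r * r), d, Nat.mul_pos hM (Nat.mul_pos hr.pos hr.pos), ?_, ?_, ?_, ?_⟩
    · apply Nat.Coprime.mul_right
      · have h := hdM.gcd_eq
        unfold Nat.Coprime at ha ⊢
        rw [h, ha]
      · have h := hdr.gcd_eq
        unfold Nat.Coprime at hb ⊢
        rw [h, hb]
    · exact h8.mul_right _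
    · have h := hdM.of_dvd h8
      unfold Nat.ModEq at h
      omega
    · intro c' hc'
      rcases List.mem_cons.1 hc' with rfl | hc'
      · exact ⟨r, hr, by omega, dvd_mul_left _ _, ((hdr.add_right 1).mul_left _).trans hb'⟩
      · obtain ⟨s, hs, hs2, hsM, hs'⟩ := hres c' hc'
        exact ⟨s, hs, hs2, hsM.mul_right _,
          (((hdM.of_dvd hsM).add_right 1).mul_left _).trans hs'⟩

private theorem exists_prime (cs : List ℕ) (h : ∀ c ∈ cs, 1 ≤ c ∧ c ≠ 2) (N : ℕ) :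
    ∃ p w : ℕ, N < p ∧ p.Prime ∧ p % 8 = 3 ∧ p + 1 = 2 * w ∧
      ∀ c ∈ cs, ¬ IsPrimePow (c * w - 1) := by
  obtain ⟨M, a, hM, ha, h8, ha8, hres⟩ := exists_mod cs h
  have : NeZero M := ⟨hM.ne'⟩
  obtain ⟨p, hp, hpp, hm⟩ := Nat.forall_exists_prime_gt_and_modEq (max N (4 * M)) hM.ne' ha
  have hN : N < p := lt_of_le_of_lt (le_max_left _ _) hp
  have hMp : 4 * M < p := lt_of_le_of_lt (le_max_right _ _) hp
  have hp8 : p % 8 = 3 := by
    have h := hm.of_dvd h8
    unfold Nat.ModEq at h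
    omega
  refine ⟨p, (p + 1) / 2, hN, hpp, hp8, by omega, ?_⟩
  intro c hc
  obtain ⟨r, hr, hr2, hrM, hr'⟩ := hres c hc
  obtain ⟨w, hw⟩ : ∃ w, p + 1 = 2 * w := ⟨(p + 1) / 2, by omega⟩
  have hw2 : (p + 1) / 2 = w := by omega
  rw [hw2]
  have hc1 := (h c hc).1
  have h5 : c * (p + 1) ≡ 2 * (1 + r) [MOD r * r] :=
    (((hm.of_dvd hrM).add_right 1).mul_left _).trans hr'
  have h6 : c * w ≡ 1 + r [MOD r * r] := by
    have hco : Nat.gcd (r * r) 2 = 1 := by
      have h : Nat.Coprime r 2 := (Nat.coprime_primes hr Nat.prime_two).2 (by omega)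
      exact Nat.Coprime.mul_left h h
    apply Nat.ModEq.cancel_left_of_coprime hco
    have e1 : 2 * (c * w) = c * (p + 1) := by rw [hw]; ring
    rw [e1]
    exact h5
  have hrr : r * r ≤ M := Nat.le_of_dvd hM hrM
  have hbig : 2 * M < c * w := by
    have h7 : 2 * M < w := by omega
    nlinarith
  have hrlt : 1 + r < c * w := by nlinarith
  have h7 : r * r ∣ c * w - (1 + r) := (Nat.modEq_iff_dvd' hrlt.le).1 h6.symm
  obtain ⟨k, hk⟩ := h7
  have h8 : c * w - 1 = r * r * k + r := by omega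
  rw [h8]
  apply not_pp _ r hr
  · have : 0 < k := by
      rcases Nat.eq_zero_or_pos k with h | h
      · subst h; omega
      · exact h
    have h9 : 0 < r * r * k := Nat.mul_pos (Nat.mul_pos hr.pos hr.pos) this
    omega
  · exact ⟨r * k + 1, by ring⟩
  · intro hd
    have h9 : r * r ∣ r := (Nat.dvd_add_right (Dvd.intro k rfl)).1 hd
    have h10 := Nat.le_of_dvd hr.pos h9
    nlinarith

/-- For every `c > 0` that is not a power of two there are infinitely many primes `p ≡ 3 (mod 4)`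
such that `(p + 1) * c` is not of the form `2 ^ j * (q + 1)` with `q` an odd prime power. -/
theorem exists_prime_new (c s : ℕ) (hc : 0 < c) (hs : s.Prime) (hs2 : s ≠ 2) (hsc : s ∣ c)
    (N : ℕ) : ∃ p : ℕ, N < p ∧ p.Prime ∧ p % 4 = 3 ∧
      ∀ j q : ℕ, IsPrimePow q → q % 2 = 1 → (p + 1) * c ≠ 2 ^ j * (q + 1) := by
  obtain ⟨v, m, hm, hcm⟩ := Nat.exists_eq_two_pow_mul_odd hc.ne'
  have hsm : s ∣ m := by
    rw [hcm] at hsc
    rcases (hs.dvd_mul).1 hsc with h | h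
    · exact absurd ((Nat.prime_dvd_prime_iff_eq hs Nat.prime_two).1 (hs.dvd_of_dvd_pow h)) hs2
    · exact h
  have hm1 : m % 2 = 1 := Nat.odd_iff.1 hm
  have hm3 : 3 ≤ m := by
    have h1 := Nat.le_of_dvd (by omega) hsm
    have h2 := hs.two_le
    omega
  obtain ⟨p, w, hN, hp, hp8, hw, hcs⟩ := exists_prime
    ((List.range (v + 2)).map (fun i => 2 ^ i * m)) (by
      intro c' hc'
      obtain ⟨i, _, rfl⟩ := List.mem_map.1 hc'
      have h1 : 1 ≤ 2 ^ i := Nat.one_le_two_pow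
      constructor <;> nlinarith) N
  refine ⟨p, hN, hp, by omega, ?_⟩
  intro j q hq hq1 he
  obtain ⟨u, hu⟩ : ∃ u, w = 2 * u := ⟨w / 2, by omega⟩
  have hu1 : u % 2 = 1 := by omega
  have hmu : (m * u) % 2 = 1 := by rw [Nat.mul_mod, hm1, hu1]
  have he2 : 2 ^ (v + 2) * (m * u) = 2 ^ j * (q + 1) := by
    rw [← he, hcm, hw, hu, pow_add]
    ring
  have hj : j ≤ v + 1 := by
    by_contra hc'
    obtain ⟨i, hi⟩ : ∃ i, j = v + 2 + i := ⟨j - (v + 2), by omega⟩
    have h3 : m * u = 2 ^ i * (q + 1) := by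
      apply Nat.eq_of_mul_eq_mul_left (show 0 < 2 ^ (v + 2) by positivity)
      rw [he2, hi, pow_add 2 (v + 2) i, mul_assoc]
    obtain ⟨q', hq'⟩ : ∃ q', q + 1 = 2 * q' := ⟨(q + 1) / 2, by omega⟩
    rw [hq'] at h3
    have h4 : 2 ^ i * (2 * q') = 2 * (2 ^ i * q') := by ring
    rw [h4] at h3
    omega
  obtain ⟨i, hi⟩ : ∃ i, v + 1 = j + i := ⟨v + 1 - j, by omega⟩
  have h3 : 2 ^ i * m * w = q + 1 := by
    apply Nat.eq_of_mul_eq_mul_left (show 0 < 2 ^ j by positivity)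
    rw [← he2, hu]
    have h4 : 2 ^ (v + 2) = 2 ^ j * 2 ^ i * 2 := by
      rw [← pow_add, ← hi, ← pow_succ]
    rw [h4]
    ring
  apply hcs (2 ^ i * m) (List.mem_map.2 ⟨i, List.mem_range.2 (by omega), rfl⟩)
  rw [h3, Nat.add_sub_cancel]
  exact hq

end Pool.Agent.Lib.MP_db622c_co.PT
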