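import Pool.Agent.Lib.MP_db622c_co.PT.TIEnd
import Pool.Agent.Lib.MP_db622c_co.CB.PaleyBase

/-!
# PT-Paley: left factors of order `q + 1`, `q ≡ 3 (mod 4)` a prime power, `q ≥ 7`

`F` a finite field with `q` elements, `χ` its quadratic character; `χ (-1) = -1`.
Choose a square `ρ ≠ 0, 1` (`q ≥ 7`: there are `(q - 1) / 2 ≥ 3` nonzero squares; then
`ρ ≠ -1` too, as `-1` is not a square) and put `a = ρ - 1`, `b = ρ + 1` (both `≠ 0`).
* `χ`: `pb_...` lemmas of `CB/PaleyBase.lean` (correlation `-1`, oddness).
* `g`: `x0 = 0`, `τ d = - d / 2` (the patterned starter; `τ d + d = d / 2`).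
* `h`: the starter of the pairs `{z, σ z}`, `z` a nonzero square, `σ` a nonsquare `≠ -1`
  (take `σ = - ρ`), `x1 = 0`: `τ d = d / (σ - 1)` if `χ d = χ (σ - 1)`, `τ d = σ d / (1 - σ)` if
  `χ d = - χ (σ - 1)`.  (`neg`: `χ (-d) = - χ d`.  `inj`: in the first case `τ d` is a square, in the
  second it is `σ` times a square: a nonsquare.)
* orthogonality of `g` and `h`: `τ_g d - τ_h d` is `- d (1/2 + 1/(σ-1)) = - c d` if
  `χ d = χ (σ - 1)`, `c = (σ + 1) / (2 (σ - 1))`, and `- d / 2 - σ d / (1 - σ) = c d` otherwise.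
  `c ≠ 0`, so `inf` holds (`x0 - x1 = 0`), and `u d = u d'` gives `d' = d` (same case) or
  `d' = - d`.
* `M`: `z d = d / a`, `e = a`, `s = 1`, `t = ρ`: `z d + d = ρ d / a`.  `NonOK`: `χ ρ = 1`; `d = 0`:
  `chi1 0 = -1` on both sides.
* `h2 = g`, `ω`: `z d - τ d = κ d`, `κ = b / (2 a)`; `inj` is clear.  `ns`: `κ d = 1` must have
  `ω d = false`; `nt`: `κ d = ρ` must have `ω d = true`.  Let `d1 = 1 / κ`; put
  `ω d = (if d = ρ d1 ∨ d = - ρ d1 then χ d = χ d1 else χ d = - χ d1)`
  (as a `Bool`, with `decide`).  Then `ω (-d) = ! ω d`, `ω d1 = false` (`d1 ≠ ± ρ d1`),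
  `ω (ρ d1) = true` (`χ (ρ d1) = χ d1`).
-/

namespace Pool.Agent.Lib.MP_db622c_co.PT

open Pool.Agent.Lib.MP_db622c_co Pool.Agent.Lib.MP_db622c_co.CB

variable {F : Type} [Field F] [Fintype F] [DecidableEq F]

private theorem pl_neg1 (h3 : Fintype.card F % 4 = 3) : (-1 : F) ≠ 1 := by
  intro h
  exact Ring.neg_one_ne_one_of_char_ne_two (pb_char h3) h

private theorem pl_ne0 {x : F} (h : quadraticChar F x = 1) : x ≠ 0 := by
  intro h0
  rw [h0, quadraticChar_zero] at h
  exact absurd h (by norm_num)

private theorem pl_neg_ne {x : F} (hx : x ≠ 0) : - quadraticChar F x ≠ quadraticChar F x := by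
  rcases quadraticChar_dichotomy hx with h | h <;> rw [h] <;> norm_num

private theorem pl_eq_neg {x y : F} (hx : x ≠ 0) (hy : y ≠ 0)
    (h : ¬ quadraticChar F x = quadraticChar F y) : quadraticChar F x = - quadraticChar F y := by
  rcases quadraticChar_dichotomy hx with h1 | h1 <;> rcases quadraticChar_dichotomy hy with h2 | h2
  · exact absurd (h1.trans h2.symm) h
  · rw [h1, h2]
    norm_num
  · rw [h1, h2]
  · exact absurd (h1.trans h2.symm) h

private theorem pl_chi (h3 : Fintype.card F % 4 = 3) : ChiOK (V := F) (fun x => quadraticChar F x) where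
  zero := quadraticChar_zero
  one := fun _ hx => quadraticChar_dichotomy hx
  neg := fun x => pb_chi_neg h3 x
  corr := fun _ hc => pb_corr h3 hc

private theorem pl_g (h3 : Fintype.card F % 4 = 3) : StOK (V := F) 0 (fun d => - d / 2) where
  neg := by
    intro d _
    have h2 := pb_two h3
    field_simp
    ring
  inj := by
    intro d d' _ _ h
    have h2 := pb_two h3
    have h' : - d / 2 = - d' / 2 := h
    rw [div_left_inj' h2] at h'
    exact neg_injective h'
  ne := by
    intro d hd h
    have h2 := pb_two h3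
    exact (div_ne_zero (neg_ne_zero.2 hd) h2) h

private theorem pl_sep (h3 : Fintype.card F % 4 = 3) :
    SepOK (V := F) (fun x => quadraticChar F x) 0 (fun d => - d / 2) where
  inf := by
    unfold chi1
    rw [if_pos rfl]
  fin := by
    intro d hd
    have h2 := pb_two h3
    have e1 : - d / 2 + d = - (- d / 2) := by
      field_simp
      ring
    have n1 : - d / 2 ≠ 0 := div_ne_zero (neg_ne_zero.2 hd) h2
    have n2 : - (- d / 2) ≠ 0 := neg_ne_zero.2 n1
    show chi1 _ (- d / 2 + d) = - chi1 _ (- d / 2)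
    rw [e1]
    unfold chi1
    rw [if_neg n1, if_neg n2]
    exact pb_chi_neg h3 _

/-- the second starter -/
private def plT (s : F) (d : F) : F :=
  if quadraticChar F d = quadraticChar F (s - 1) then d / (s - 1) else s * d / (1 - s)

private theorem plT_pos {s d : F} (h : quadraticChar F d = quadraticChar F (s - 1)) :
    plT s d = d / (s - 1) := if_pos h

private theorem plT_neg {s d : F} (h : ¬ quadraticChar F d = quadraticChar F (s - 1)) :
    plT s d = s * d / (1 - s) := if_neg h

private theorem pl_h (h3 : Fintype.card F % 4 = 3) {s : F} (hs : quadraticChar F s = -1)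
    (hs1 : s - 1 ≠ 0) : StOK (V := F) 0 (plT s) := by
  have hs0 : s ≠ 0 := rho_ne hs
  have hs2 : 1 - s ≠ 0 := by
    intro h
    apply hs1
    linear_combination -h
  refine ⟨?_, ?_, ?_⟩
  · intro d hd
    by_cases h : quadraticChar F d = quadraticChar F (s - 1)
    · have h' : ¬ quadraticChar F (-d) = quadraticChar F (s - 1) := by
        rw [pb_chi_neg h3, h]
        exact pl_neg_ne hs1
      rw [plT_pos h, plT_neg h']
      field_simp
      ring
    · have h' : quadraticChar F (-d) = quadraticChar F (s - 1) := by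
        rw [pb_chi_neg h3, pl_eq_neg hd hs1 h, neg_neg]
      rw [plT_neg h, plT_pos h']
      field_simp
      ring
  · have key : ∀ d d' : F, d ≠ 0 → d' ≠ 0 → quadraticChar F d = quadraticChar F (s - 1) →
        ¬ quadraticChar F d' = quadraticChar F (s - 1) → d / (s - 1) = s * d' / (1 - s) → False := by
      intro d d' _ _ h h' he
      rw [div_eq_div_iff hs1 hs2] at he
      have h1 : (1 - s) * (d + s * d') = 0 := by linear_combination he
      have h2 : d + s * d' = 0 := by
        rcases mul_eq_zero.1 h1 with h1 | h1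
        · exact absurd h1 hs2
        · exact h1
      have h4 : d = - (s * d') := by linear_combination h2
      have h5 : quadraticChar F d = quadraticChar F d' := by
        rw [h4, pb_chi_neg h3, map_mul, hs]
        ring
      exact h' (h5.symm.trans h)
    intro d d' hd hd' he
    by_cases h : quadraticChar F d = quadraticChar F (s - 1) <;>
      by_cases h' : quadraticChar F d' = quadraticChar F (s - 1)
    · rw [plT_pos h, plT_pos h', div_left_inj' hs1] at he
      exact he
    · rw [plT_pos h, plT_neg h'] at he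
      exact (key d d' hd hd' h h' he).elim
    · rw [plT_neg h, plT_pos h'] at he
      exact (key d' d hd' hd h' h he.symm).elim
    · rw [plT_neg h, plT_neg h', div_left_inj' hs2] at he
      exact mul_left_cancel₀ hs0 he
  · intro d hd
    by_cases h : quadraticChar F d = quadraticChar F (s - 1)
    · rw [plT_pos h]
      exact div_ne_zero hd hs1
    · rw [plT_neg h]
      exact div_ne_zero (mul_ne_zero hs0 hd) hs2

private theorem pl_or (h3 : Fintype.card F % 4 = 3) {s : F}
    (hs1 : s - 1 ≠ 0) (hs2 : s + 1 ≠ 0) : OrOK (V := F) 0 (fun d => - d / 2) 0 (plT s) := by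
  have h2 := pb_two h3
  have hs3 : 1 - s ≠ 0 := by
    intro h
    apply hs1
    linear_combination -h
  obtain ⟨c, hc⟩ : ∃ c : F, c = (s + 1) / (2 * (s - 1)) := ⟨_, rfl⟩
  have c0 : c ≠ 0 := by
    rw [hc]
    exact div_ne_zero hs2 (mul_ne_zero h2 hs1)
  have e1 : ∀ d : F, quadraticChar F d = quadraticChar F (s - 1) → - d / 2 - plT s d = - (c * d) := by
    intro d h
    rw [plT_pos h, hc]
    field_simp
    ring
  have e2 : ∀ d : F, ¬ quadraticChar F d = quadraticChar F (s - 1) → - d / 2 - plT s d = c * d := by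
    intro d h
    have e3 : s * d / (1 - s) = - (s * d / (s - 1)) := by
      rw [← neg_sub s 1, div_neg]
    rw [plT_neg h, hc, e3]
    field_simp
    ring
  refine ⟨?_, ?_⟩
  · intro d hd he
    have he' : - d / 2 - plT s d = 0 := by
      rw [sub_zero] at he
      exact he
    by_cases h : quadraticChar F d = quadraticChar F (s - 1)
    · rw [e1 d h] at he'
      exact (neg_ne_zero.2 (mul_ne_zero c0 hd)) he'
    · rw [e2 d h] at he'
      exact (mul_ne_zero c0 hd) he'
  · intro d d' _ _ he
    have he' : - d / 2 - plT s d = - d' / 2 - plT s d' := he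
    by_cases h : quadraticChar F d = quadraticChar F (s - 1) <;>
      by_cases h' : quadraticChar F d' = quadraticChar F (s - 1)
    · rw [e1 d h, e1 d' h'] at he'
      left
      exact mul_left_cancel₀ c0 (neg_injective he').symm
    · rw [e1 d h, e2 d' h'] at he'
      right
      apply mul_left_cancel₀ c0
      rw [← he', mul_neg]
    · rw [e2 d h, e1 d' h'] at he'
      right
      apply mul_left_cancel₀ c0
      rw [mul_neg, he', neg_neg]
    · rw [e2 d h, e2 d' h'] at he'
      left
      exact mul_left_cancel₀ c0 he'.symm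

omit [Fintype F] [DecidableEq F] in
private theorem pl_sq {r : F} (hr0 : r ≠ 0) (hr1 : r - 1 ≠ 0) :
    SqOK (V := F) (fun d => d / (r - 1)) (r - 1) 1 r := by
  have e1 : ∀ d : F, d / (r - 1) + d = r * d / (r - 1) := by
    intro d
    field_simp
    ring
  refine ⟨hr1, ?_, ?_, ?_, ?_⟩
  · intro d d' _ _ h
    have h' : d / (r - 1) = d' / (r - 1) := h
    rw [div_left_inj' hr1] at h'
    exact h'
  · intro d d' _ _ h
    have h' : d / (r - 1) + d = d' / (r - 1) + d' := h
    rw [e1, e1, div_left_inj' hr1] at h'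
    exact mul_left_cancel₀ hr0 h'
  · intro d hd h
    have h' : d / (r - 1) = 1 := h
    rw [div_eq_iff hr1, one_mul] at h'
    exact hd h'
  · intro d hd h
    have h' : d / (r - 1) + d = r := h
    rw [e1, div_eq_iff hr1] at h'
    exact hd (mul_left_cancel₀ hr0 h')

private theorem pl_non {r : F} (hr : quadraticChar F r = 1) (hr1 : r - 1 ≠ 0) :
    NonOK (V := F) (fun x => quadraticChar F x) (fun d => d / (r - 1)) (r - 1) 1 r := by
  have hr0 := pl_ne0 hr
  have e1 : ∀ d : F, d / (r - 1) + d = r * (d / (r - 1)) := by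
    intro d
    field_simp
    ring
  refine ⟨?_, ?_, ?_⟩
  · unfold chi1
    rw [if_neg one_ne_zero]
    exact map_one _
  · unfold chi1
    rw [if_neg hr0]
    exact hr
  · intro d _
    show chi1 _ (d / (r - 1) + d) = chi1 _ (d / (r - 1))
    rw [e1]
    unfold chi1
    by_cases h : d / (r - 1) = 0
    · rw [h, mul_zero]
    · rw [if_neg h, if_neg (mul_ne_zero hr0 h)]
      show quadraticChar F (r * (d / (r - 1))) = quadraticChar F (d / (r - 1))
      rw [map_mul, hr, one_mul]

/-- the orientation -/
private def plW (r d1 : F) (d : F) : Bool :=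
  if d = r * d1 ∨ d = - (r * d1) then decide (quadraticChar F d = quadraticChar F d1)
  else decide (¬ quadraticChar F d = quadraticChar F d1)

private theorem pl_anti (h3 : Fintype.card F % 4 = 3) {r d1 : F} (h1 : d1 ≠ 0) (d : F)
    (hd : d ≠ 0) : plW r d1 (-d) = !(plW r d1 d) := by
  have e1 : (-d = r * d1 ∨ -d = - (r * d1)) ↔ (d = r * d1 ∨ d = - (r * d1)) := by
    constructor
    · rintro (h | h)
      · right
        rw [← h, neg_neg]
      · left
        exact neg_injective h
    · rintro (h | h)
      · right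
        rw [h]
      · left
        rw [h, neg_neg]
  have e2 : quadraticChar F (-d) = quadraticChar F d1 ↔ ¬ quadraticChar F d = quadraticChar F d1 := by
    rw [pb_chi_neg h3]
    constructor
    · intro h h'
      rw [h'] at h
      exact pl_neg_ne h1 h
    · intro h
      rw [pl_eq_neg hd h1 h, neg_neg]
  unfold plW
  by_cases h : d = r * d1 ∨ d = - (r * d1)
  · rw [if_pos h, if_pos (e1.2 h)]
    by_cases h' : quadraticChar F d = quadraticChar F d1
    · have h'' : ¬ quadraticChar F (-d) = quadraticChar F d1 := fun hh => (e2.1 hh) h'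
      rw [decide_eq_true h', decide_eq_false h'']
      rfl
    · rw [decide_eq_false h', decide_eq_true (e2.2 h')]
      rfl
  · rw [if_neg h, if_neg (fun hh => h (e1.1 hh))]
    by_cases h' : quadraticChar F d = quadraticChar F d1
    · have h'' : ¬ quadraticChar F (-d) = quadraticChar F d1 := fun hh => (e2.1 hh) h'
      rw [decide_eq_true h'', decide_eq_false (fun hh => hh h')]
      rfl
    · rw [decide_eq_true h', decide_eq_false (fun hh => hh (e2.2 h'))]
      rfl

private theorem pl_cf (h3 : Fintype.card F % 4 = 3) {r : F} (hr : quadraticChar F r = 1)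
    (hr1 : r - 1 ≠ 0) (hr2 : r + 1 ≠ 0) :
    CfOK (V := F) 0 (fun d => - d / 2) (plW r (2 * (r - 1) / (r + 1))) (fun d => d / (r - 1))
      (r - 1) 1 r := by
  have h2 := pb_two h3
  have hr0 := pl_ne0 hr
  obtain ⟨d1, hd1⟩ : ∃ d1 : F, d1 = 2 * (r - 1) / (r + 1) := ⟨_, rfl⟩
  have d10 : d1 ≠ 0 := by
    rw [hd1]
    exact div_ne_zero (mul_ne_zero h2 hr1) hr2
  rw [← hd1]
  have e1 : ∀ d : F, d / (r - 1) - - d / 2 = d / d1 := by
    intro d
    rw [hd1]
    field_simp
    ring
  refine ⟨fun d hd => pl_anti h3 d10 d hd, ?_, ?_, ?_⟩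
  · intro d d' _ _ _ _ h _
    have h' : d / (r - 1) - - d / 2 = d' / (r - 1) - - d' / 2 := h
    rw [e1, e1, div_left_inj' d10] at h'
    exact h'
  · intro d _ _ h
    have h' : d / (r - 1) - - d / 2 = 1 - 0 := h
    rw [e1, sub_zero, div_eq_iff d10, one_mul] at h'
    rw [h']
    have n1 : ¬ (d1 = r * d1 ∨ d1 = - (r * d1)) := by
      rintro (hh | hh)
      · have h5 : (r - 1) * d1 = 0 := by linear_combination -hh
        exact (mul_ne_zero hr1 d10) h5
      · have h5 : (r + 1) * d1 = 0 := by linear_combination hh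
        exact (mul_ne_zero hr2 d10) h5
    unfold plW
    rw [if_neg n1]
    exact decide_eq_false (fun hh => hh rfl)
  · intro d _ _ h
    have h' : d / (r - 1) - - d / 2 = r - 0 := h
    rw [e1, sub_zero, div_eq_iff d10] at h'
    rw [h']
    unfold plW
    rw [if_pos (Or.inl rfl)]
    refine decide_eq_true ?_
    rw [map_mul, hr, one_mul]

private theorem pl_exists (h4 : Fintype.card F % 4 = 3) (h7 : 7 ≤ Fintype.card F) :
    ∃ r : F, quadraticChar F r = 1 ∧ r - 1 ≠ 0 ∧ r + 1 ≠ 0 := by
  have h1 : ∃ x : F, x ∉ ({0, 1, -1} : Finset F) := by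
    by_contra hcon
    push Not at hcon
    have h2 : (Finset.univ : Finset F) ⊆ {0, 1, -1} := fun x _ => hcon x
    have h3 := Finset.card_le_card h2
    rw [Finset.card_univ] at h3
    have h5 : ({0, 1, -1} : Finset F).card ≤ 3 := Finset.card_le_three
    omega
  obtain ⟨x, hx⟩ := h1
  rw [Finset.mem_insert, Finset.mem_insert, Finset.mem_singleton, not_or, not_or] at hx
  obtain ⟨hx0, hx1, hx2⟩ := hx
  have hc : quadraticChar F (x * x) = 1 := by
    rw [map_mul, ← pow_two]
    exact quadraticChar_sq_one hx0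
  refine ⟨x * x, hc, ?_, ?_⟩
  · intro h
    have h5 : (x - 1) * (x + 1) = 0 := by linear_combination h
    rcases mul_eq_zero.1 h5 with h6 | h6
    · exact hx1 (by linear_combination h6)
    · exact hx2 (by linear_combination h6)
  · intro h
    have h5 : x * x = -1 := by linear_combination h
    rw [h5, pb_neg h4] at hc
    exact absurd hc (by norm_num)

theorem hasJS_field (F : Type) [Field F] [Fintype F] [DecidableEq F]
    (h4 : Fintype.card F % 4 = 3) (h7 : 7 ≤ Fintype.card F) : HasJS (Fintype.card F + 1) := by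
  obtain ⟨r, hr, hr1, hr2⟩ := pl_exists h4 h7
  have hr0 := pl_ne0 hr
  have hs : quadraticChar F (-r) = -1 := by
    rw [pb_chi_neg h4, hr]
  have hs1 : (-r) - 1 ≠ 0 := by
    intro h
    apply hr2
    linear_combination -h
  have hs2 : (-r) + 1 ≠ 0 := by
    intro h
    apply hr1
    linear_combination -h
  exact hasJS_of (V := F)
    { chi := pl_chi h4
      g := pl_g h4
      sep := pl_sep h4
      h := pl_h h4 hs hs1
      gh := pl_or h4 hs1 hs2
      M := pl_sq hr0 hr1
      non := pl_non hr hr1
      h2 := pl_g h4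
      cf := pl_cf h4 hr hr1 hr2 }

theorem hasJS_paley (q : ℕ) (hq : IsPrimePow q) (h4 : q % 4 = 3) (h7 : 7 ≤ q) :
    HasJS (q + 1) := by
  have h1 : Nonempty (Field (Fin q)) := by
    rw [Fintype.nonempty_field_iff, Fintype.card_fin]
    exact hq
  obtain ⟨inst⟩ := h1
  have h2 := @hasJS_field (Fin q) inst (inferInstance) (inferInstance)
  rw [Fintype.card_fin] at h2
  exact h2 h4 h7

end Pool.Agent.Lib.MP_db622c_co.PT
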