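import Pool.Agent.Lib.MP_db622c_co.PT.Prod
import Pool.Agent.Lib.MP_db622c_co.PT.Paley
import Pool.Agent.Lib.MP_db622c_co.PT.KFS
import Pool.Agent.Lib.MP_db622c_co.PT.D11
import Pool.Agent.Lib.MP_db622c_co.PT.D19
import Pool.Agent.Lib.MP_db622c_co.PT.D23
import Pool.Agent.Lib.MP_db622c_co.PT.D27
import Pool.Agent.Lib.MP_db622c_co.PT.D43
import Pool.Agent.Lib.MP_db622c_co.PT.D47
import Pool.Agent.Lib.MP_db622c_co.PT.D59
import Pool.Agent.Lib.MP_db622c_co.PT.D67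
import Pool.Agent.Lib.MP_db622c_co.PT.Nov

/-!
# PT-Main: the orders obtained from the product theorem
-/

namespace Pool.Agent.Lib.MP_db622c_co.PT

open Pool.Agent.Lib.MP_db622c_co Pool.Agent.Lib.MP_db622c_co.CB

/-- the orders of the left factors with orthogonal squares -/
def LF : List ℕ := [12, 20, 24, 28, 44, 48, 60, 68]

theorem hasJSP_LF (m : ℕ) (h : m ∈ LF) : HasJSP m := by
  simp only [LF, List.mem_cons, List.not_mem_nil, or_false] at h
  rcases h with rfl | rfl | rfl | rfl | rfl | rfl | rfl | rfl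
  · exact D11.hasJSP
  · exact D19.hasJSP
  · exact D23.hasJSP
  · exact D27.hasJSP
  · exact D43.hasJSP
  · exact D47.hasJSP
  · exact D59.hasJSP
  · exact D67.hasJSP

theorem LF_two (m : ℕ) (h : m ∈ LF) : 2 ≤ m ∧ m % 4 = 0 := by
  simp only [LF, List.mem_cons, List.not_mem_nil, or_false] at h
  omega

theorem hasFS_list (l : List ℕ) (hl : ∀ m ∈ l, m ∈ LF) (e : ℕ)
    (he : 3 ≤ e ∨ (e = 0 ∧ l ≠ [])) : HasFS (2 ^ e * l.prod) := by
  induction l with
  | nil =>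
    rcases he with he | he
    · simpa using hasFS_two_pow e he
    · exact absurd rfl he.2
  | cons m l ih =>
    have hm := hasJSP_LF m (hl m (List.mem_cons_self))
    have hm2 := (LF_two m (hl m (List.mem_cons_self))).1
    have hl' : ∀ m ∈ l, m ∈ LF := fun m' h' => hl m' (List.mem_cons_of_mem _ h')
    by_cases hc : 3 ≤ e ∨ (e = 0 ∧ l ≠ [])
    · have h1 := hasFS_mul hm2 hm (ih hl' hc)
      rw [List.prod_cons]
      convert h1 using 1
      ring
    · have h0 : e = 0 ∧ l = [] := by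
        rcases he with he | he
        · exact absurd (Or.inl he) hc
        · refine ⟨he.1, ?_⟩
          by_contra hl0
          exact hc (Or.inr ⟨he.1, hl0⟩)
      rw [h0.1, h0.2]
      simpa using hasFS_of_hasJSP hm

theorem prod_mod_four (l : List ℕ) (hl : ∀ m ∈ l, m ∈ LF) (e : ℕ)
    (he : 3 ≤ e ∨ (e = 0 ∧ l ≠ [])) : 0 < 2 ^ e * l.prod ∧ (2 ^ e * l.prod) % 4 = 0 := by
  have hpos : 0 < l.prod := by
    apply List.prod_pos
    intro m hm
    have := (LF_two m (hl m hm)).1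
    omega
  refine ⟨Nat.mul_pos (by positivity) hpos, ?_⟩
  rcases he with he | he
  · have h1 : 4 ∣ 2 ^ e := by
      have : (4 : ℕ) = 2 ^ 2 := by norm_num
      rw [this]
      exact pow_dvd_pow 2 (by omega)
    exact Nat.mod_eq_zero_of_dvd (Dvd.dvd.mul_right h1 _)
  · rcases l with _ | ⟨m, l⟩
    · exact absurd rfl he.2
    · have h1 : 4 ∣ m := Nat.dvd_of_mod_eq_zero (LF_two m (hl m (List.mem_cons_self))).2
      rw [List.prod_cons]
      exact Nat.mod_eq_zero_of_dvd (Dvd.dvd.mul_left (Dvd.dvd.mul_right h1 _) _)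

theorem hasCBHR_list (l : List ℕ) (hl : ∀ m ∈ l, m ∈ LF) (e : ℕ)
    (he : 3 ≤ e ∨ (e = 0 ∧ l ≠ [])) : HasCBHR (2 ^ e * l.prod) := by
  obtain ⟨h0, h4⟩ := prod_mod_four l hl e he
  exact hasCBHR_of_hasPD _ h0 h4 (hasPD_of_hasFS (hasFS_list l hl e he))

theorem hasCBHR_paley_list (q : ℕ) (hq : IsPrimePow q) (hq4 : q % 4 = 3) (hq7 : 7 ≤ q)
    (l : List ℕ) (hl : ∀ m ∈ l, m ∈ LF) (e : ℕ) (he : 3 ≤ e ∨ (e = 0 ∧ l ≠ [])) :
    HasCBHR ((q + 1) * (2 ^ e * l.prod)) := by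
  obtain ⟨h0, h4⟩ := prod_mod_four l hl e he
  refine hasCBHR_of_hasPD _ (Nat.mul_pos (by omega) h0) ?_
    (hasPD_mul (by omega) (hasJS_paley q hq hq4 hq7) (hasFS_list l hl e he))
  exact Nat.mod_eq_zero_of_dvd (Dvd.dvd.mul_left (Nat.dvd_of_mod_eq_zero h4) _)

theorem LF_odd (m : ℕ) (h : m ∈ LF) : ∃ s : ℕ, s.Prime ∧ s ≠ 2 ∧ s ∣ m := by
  simp only [LF, List.mem_cons, List.not_mem_nil, or_false] at h
  rcases h with rfl | rfl | rfl | rfl | rfl | rfl | rfl | rfl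
  · exact ⟨3, by norm_num, by norm_num, by norm_num⟩
  · exact ⟨5, by norm_num, by norm_num, by norm_num⟩
  · exact ⟨3, by norm_num, by norm_num, by norm_num⟩
  · exact ⟨7, by norm_num, by norm_num, by norm_num⟩
  · exact ⟨11, by norm_num, by norm_num, by norm_num⟩
  · exact ⟨3, by norm_num, by norm_num, by norm_num⟩
  · exact ⟨3, by norm_num, by norm_num, by norm_num⟩
  · exact ⟨17, by norm_num, by norm_num, by norm_num⟩

/-- infinitely many of the orders are not of the form `2 ^ j * (q' + 1)` -/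
theorem exists_new (l : List ℕ) (hl : ∀ m ∈ l, m ∈ LF) (hl0 : l ≠ []) (e : ℕ)
    (he : 3 ≤ e ∨ (e = 0 ∧ l ≠ [])) (N : ℕ) :
    ∃ q : ℕ, N < q ∧ q.Prime ∧ q % 4 = 3 ∧ ∀ j q' : ℕ, IsPrimePow q' → q' % 2 = 1 →
      (q + 1) * (2 ^ e * l.prod) ≠ 2 ^ j * (q' + 1) := by
  obtain ⟨h0, h4⟩ := prod_mod_four l hl e he
  rcases l with _ | ⟨m, l⟩
  · exact absurd rfl hl0
  · obtain ⟨s, hs, hs2, hsm⟩ := LF_odd m (hl m (List.mem_cons_self))
    refine exists_prime_new _ s h0 hs hs2 ?_ N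
    rw [List.prod_cons]
    exact Dvd.dvd.mul_left (Dvd.dvd.mul_right hsm _) _

/-- products of powers of three, five, seven, eleven and seventeen -/
theorem hasCBHR_smooth (a b c d f g : ℕ) (hb : 1 ≤ b) (ha : 2 * (b + c + d + f + g) ≤ a) :
    HasCBHR (2 ^ a * 3 ^ b * 5 ^ c * 7 ^ d * 11 ^ f * 17 ^ g) := by
  obtain ⟨e, rfl⟩ : ∃ e, a = 2 * (b + c + d + f + g) + e :=
    ⟨a - 2 * (b + c + d + f + g), by omega⟩
  obtain ⟨b, rfl⟩ : ∃ b', b = b' + 1 := ⟨b - 1, by omega⟩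
  have key : ∀ (x e' : ℕ), x ∈ LF → (3 ≤ e' ∨ e' = 0) →
      2 ^ e' * x = 12 * 2 ^ e →
      HasCBHR (2 ^ (2 * (b + 1 + c + d + f + g) + e) * 3 ^ (b + 1) * 5 ^ c * 7 ^ d * 11 ^ f
        * 17 ^ g) := by
    intro x e' hx he' hxe
    have h := hasCBHR_list (x :: (List.replicate b 12 ++ List.replicate c 20
      ++ List.replicate d 28 ++ List.replicate f 44 ++ List.replicate g 68)) (by
        intro m hm
        simp only [List.mem_cons, List.mem_append, List.mem_replicate] at hm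
        rcases hm with rfl | (((⟨_, rfl⟩ | ⟨_, rfl⟩) | ⟨_, rfl⟩) | ⟨_, rfl⟩) | ⟨_, rfl⟩
        · exact hx
        all_goals simp [LF]) e' (by
        rcases he' with h | h
        · exact Or.inl h
        · exact Or.inr ⟨h, List.cons_ne_nil _ _⟩)
    simp only [List.prod_cons, List.prod_append, List.prod_replicate] at h
    have e1 : 2 ^ e' * (x * (12 ^ b * 20 ^ c * 28 ^ d * 44 ^ f * 68 ^ g))
        = 2 ^ (2 * (b + 1 + c + d + f + g) + e) * 3 ^ (b + 1) * 5 ^ c * 7 ^ d * 11 ^ f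
          * 17 ^ g := by
      have h12 : (12 : ℕ) ^ b = 4 ^ b * 3 ^ b := by
        rw [← mul_pow, show (4 * 3 : ℕ) = 12 from rfl]
      have h20 : (20 : ℕ) ^ c = 4 ^ c * 5 ^ c := by
        rw [← mul_pow, show (4 * 5 : ℕ) = 20 from rfl]
      have h28 : (28 : ℕ) ^ d = 4 ^ d * 7 ^ d := by
        rw [← mul_pow, show (4 * 7 : ℕ) = 28 from rfl]
      have h44 : (44 : ℕ) ^ f = 4 ^ f * 11 ^ f := by
        rw [← mul_pow, show (4 * 11 : ℕ) = 44 from rfl]
      have h68 : (68 : ℕ) ^ g = 4 ^ g * 17 ^ g := by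
        rw [← mul_pow, show (4 * 17 : ℕ) = 68 from rfl]
      have h4 : (2 : ℕ) ^ (2 * (b + 1 + c + d + f + g) + e)
          = 4 * 4 ^ b * 4 ^ c * 4 ^ d * 4 ^ f * 4 ^ g * 2 ^ e := by
        rw [pow_add, pow_mul]
        norm_num
        ring
      rw [h12, h20, h28, h44, h68, h4, ← mul_assoc, hxe]
      ring
    rwa [e1] at h
  rcases (by omega : e = 0 ∨ e = 1 ∨ e = 2 ∨ 3 ≤ e) with rfl | rfl | rfl | he
  · exact key 12 0 (by simp [LF]) (Or.inr rfl) (by norm_num)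
  · exact key 24 0 (by simp [LF]) (Or.inr rfl) (by norm_num)
  · exact key 48 0 (by simp [LF]) (Or.inr rfl) (by norm_num)
  · exact key 12 e (by simp [LF]) (Or.inl he) (by ring)

end Pool.Agent.Lib.MP_db622c_co.PT
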