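import Pool.Agent.Lib.MP_db622c_co.PT.Defs

/-!
# PT-ProdR: the rounds of the product

`RR z0 h h2 o r P p q` is `inl (r p.2 q.2)` if `p.1 = q.1`, else `inr (hq h h2 p q, pq o P p q)`
where `hq = h p.1 q.1` if `p.2 = q.2` and `h2 p.1 q.1` otherwise (never `0`: `hh.ne`, `hh2.ne`) and
`pq = P p.2 q.2` if `o p.1 q.1`, else `P q.2 p.2`.
* ne: `inl (r p.2 q.2) ≠ inl 0` (`hr.ne`), `inr _ ≠ inl 0`.
* symm: `hr.symm`, `hh.symm`, `hh2.symm`; `anti` exchanges the two cases of `pq`.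
* inj: `RR p q = RR p q'`, `q, q' ≠ p`.  Both `inl`: `p.1 = q.1 = q'.1` and `hr.inj`.  Both `inr`:
  `hq p q = hq p q'`, `pq p q = pq p q'`.  If `q.2 = p.2 = q'.2`: `hh.inj`.  If `q.2, q'.2 ≠ p.2`:
  `hh2.inj` gives `q.1 = q'.1`, so `o` has the same value and `hP.row` or `hP.col` gives
  `q.2 = q'.2`.  If `q.2 = p.2 ≠ q'.2`: `pq p q = P p.2 p.2` equals `P p.2 q'.2` or `P q'.2 p.2`:
  `hP.row` or `hP.col` gives `q'.2 = p.2`, a contradiction.
* `RR_inl`, `RR_inr` are the evaluation lemmas; `RR_eq_iff`: two values with different first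
  components agree iff `hq` and `pq` agree.
-/

namespace Pool.Agent.Lib.MP_db622c_co.PT

open Pool.Agent.Lib.MP_db622c_co Pool.Agent.Lib.MP_db622c_co.CB

variable {J N Y R T : Type} [Zero N] [Zero R]

theorem hq_ne {h h2 : J → J → N} (hh : IsOF h) (hh2 : IsOF h2) (p q : J × Y)
    (h1 : p.1 ≠ q.1) : hq h h2 p q ≠ 0 := by
  unfold hq
  split_ifs
  · exact hh.ne _ _ h1
  · exact hh2.ne _ _ h1

theorem RR_inl {h h2 : J → J → N} {o : J → J → Bool} {r : Y → Y → R} {P : Y → Y → T}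
    (z0 : {z : N // z ≠ 0}) (p q : J × Y) (h1 : p.1 = q.1) :
    RR z0 h h2 o r P p q = Sum.inl (r p.2 q.2) := by
  unfold RR
  rw [if_pos h1]

theorem RR_inr {h h2 : J → J → N} {o : J → J → Bool} {r : Y → Y → R} {P : Y → Y → T}
    (hh : IsOF h) (hh2 : IsOF h2) (z0 : {z : N // z ≠ 0}) (p q : J × Y) (h1 : p.1 ≠ q.1) :
    RR z0 h h2 o r P p q = Sum.inr (⟨hq h h2 p q, hq_ne hh hh2 p q h1⟩, pq o P p q) := by
  unfold RR
  rw [if_neg h1, dif_pos (hq_ne hh hh2 p q h1)]

/-- what equal rounds mean -/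
theorem RR_eq {h h2 : J → J → N} {o : J → J → Bool} {r : Y → Y → R} {P : Y → Y → T}
    (hh : IsOF h) (hh2 : IsOF h2) (z0 : {z : N // z ≠ 0}) (p q p' q' : J × Y)
    (he : RR z0 h h2 o r P p q = RR z0 h h2 o r P p' q') :
    (p.1 = q.1 ∧ p'.1 = q'.1 ∧ r p.2 q.2 = r p'.2 q'.2) ∨
    (p.1 ≠ q.1 ∧ p'.1 ≠ q'.1 ∧ hq h h2 p q = hq h h2 p' q' ∧ pq o P p q = pq o P p' q') := by
  by_cases h1 : p.1 = q.1
  · by_cases h2' : p'.1 = q'.1
    · rw [RR_inl z0 p q h1, RR_inl z0 p' q' h2'] at he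
      exact Or.inl ⟨h1, h2', Sum.inl.inj he⟩
    · rw [RR_inl z0 p q h1, RR_inr hh hh2 z0 p' q' h2'] at he
      exact absurd he (by simp)
  · by_cases h2' : p'.1 = q'.1
    · rw [RR_inr hh hh2 z0 p q h1, RR_inl z0 p' q' h2'] at he
      exact absurd he (by simp)
    · rw [RR_inr hh hh2 z0 p q h1, RR_inr hh hh2 z0 p' q' h2'] at he
      have h3 := Sum.inr.inj he
      exact Or.inr ⟨h1, h2', congrArg Subtype.val (congrArg Prod.fst h3), congrArg Prod.snd h3⟩

theorem isOF_RR {h h2 : J → J → N} {o : J → J → Bool} {r : Y → Y → R} {P : Y → Y → T}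
    (hh : IsOF h) (hh2 : IsOF h2) (anti : ∀ x y, x ≠ y → o y x = !(o x y)) (hr : IsOF r)
    (hP : IsLat P) (z0 : {z : N // z ≠ 0}) :
    @IsOF (R ⊕ {z : N // z ≠ 0} × T) (J × Y) (zR R N T) (RR z0 h h2 o r P) := by
  let _ := zR R N T
  have hqs : ∀ p q : J × Y, hq h h2 p q = hq h h2 q p := by
    intro p q
    unfold hq
    by_cases h1 : p.2 = q.2
    · rw [if_pos h1, if_pos h1.symm, hh.symm]
    · rw [if_neg h1, if_neg (Ne.symm h1), hh2.symm]
  have pqs : ∀ p q : J × Y, p.1 ≠ q.1 → pq o P p q = pq o P q p := by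
    intro p q hpq
    unfold pq
    rw [anti p.1 q.1 hpq]
    cases o p.1 q.1 <;> simp
  refine ⟨?_, ?_, ?_⟩
  · intro p q hpq h0
    change RR z0 h h2 o r P p q = Sum.inl 0 at h0
    by_cases h1 : p.1 = q.1
    · rw [RR_inl z0 p q h1] at h0
      exact hr.ne _ _ (fun hc => hpq (Prod.ext h1 hc)) (Sum.inl.inj h0)
    · rw [RR_inr hh hh2 z0 p q h1] at h0
      exact absurd h0 (by simp)
  · intro p q
    by_cases h1 : p.1 = q.1
    · rw [RR_inl z0 p q h1, RR_inl z0 q p h1.symm, hr.symm]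
    · rw [RR_inr hh hh2 z0 p q h1, RR_inr hh hh2 z0 q p (Ne.symm h1)]
      congr 2
      · exact Subtype.ext (hqs p q)
      · exact pqs p q h1
  · intro p q q' hq1 hq2 he
    rcases RR_eq hh hh2 z0 p q p q' he with ⟨h1, h2', h3⟩ | ⟨h1, h2', h3, h4⟩
    · have h5 := hr.inj _ _ _ (fun hc => hq1 (Prod.ext h1.symm hc))
        (fun hc => hq2 (Prod.ext h2'.symm hc)) h3
      exact Prod.ext (h1.symm.trans h2') h5
    · have hmix : ∀ a b : J × Y, p.2 = a.2 → p.2 ≠ b.2 → pq o P p a = pq o P p b → False := by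
        intro a b ha hb hab
        have h5 : pq o P p a = P p.2 p.2 := by
          unfold pq
          rw [← ha]
          split_ifs <;> rfl
        rw [h5] at hab
        unfold pq at hab
        split_ifs at hab
        · exact hb (hP.row _ _ _ hab)
        · exact hb (hP.col _ _ _ hab)
      by_cases hb : p.2 = q.2
      · by_cases hb' : p.2 = q'.2
        · unfold hq at h3
          rw [if_pos hb, if_pos hb'] at h3
          exact Prod.ext (hh.inj _ _ _ (Ne.symm h1) (Ne.symm h2') h3) (hb.symm.trans hb')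
        · exact (hmix q q' hb hb' h4).elim
      · by_cases hb' : p.2 = q'.2
        · exact (hmix q' q hb' hb h4.symm).elim
        · unfold hq at h3
          rw [if_neg hb, if_neg hb'] at h3
          have h5 := hh2.inj _ _ _ (Ne.symm h1) (Ne.symm h2') h3
          unfold pq at h4
          rw [h5] at h4
          refine Prod.ext h5 ?_
          split_ifs at h4
          · exact hP.row _ _ _ h4
          · exact hP.col _ _ _ h4

end Pool.Agent.Lib.MP_db622c_co.PT
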