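import Pool.Agent.Lib.MP_db622c_co.PT.ProdG
import Pool.Agent.Lib.MP_db622c_co.PT.ProdR

/-!
# PT-ProdO: the boards and the rounds of the product are orthogonal

Let `p ≠ q`, `p' ≠ q'`, `GG p q = GG p' q'`, `RR p q = RR p' q'`.  By `RR_eq`:
* `p.1 = q.1`, `p'.1 = q'.1`, `r p.2 q.2 = r p'.2 q'.2`: then `p.2 ≠ q.2`, `p'.2 ≠ q'.2` and the
  boards are `(M p.1 p.1, g' p.2 q.2)`, `(M p'.1 p'.1, g' p'.2 q'.2)` (in both cases of the
  definition), so `p.1 = p'.1` (`J.mdiag`) and `Y.orth` finishes.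
* `p.1 ≠ q.1`, `p'.1 ≠ q'.1`, `hq` and `pq` agree.  `g' p.2 q.2 = g' p'.2 q'.2` by `GG_snd`, so
  `p.2 = q.2` iff `p'.2 = q'.2` (`Y.of_g.ne`, `Y.diag`).
  - If `p.2 = q.2`, `p'.2 = q'.2`: `g p.1 q.1 = g p'.1 q'.1`, `h p.1 q.1 = h p'.1 q'.1`, so
    `p'.1 = p.1 ∨ p'.1 = q.1` (`J.orth`); `pq` gives `P p.2 p.2 = P p'.2 p'.2`, and
    `g' p.2 p.2 = 0 = g' p'.2 p'.2`, so `p.2 = p'.2` (`Y.mate`).
  - If `p.2 ≠ q.2`, `p'.2 ≠ q'.2`: lemma `orth_key` for pairs whose first point is the `+` end,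
    applied to `(p, q)` or `(q, p)` and to `(p', q')` or `(q', p')` (`end_iff`; `GG`, `hq`, `pq` are
    symmetric for different first components, for `pq` because of `anti`).
* `orth_key`: `M p.1 q.1 = M p'.1 q'.1`, `h2 p.1 q.1 = h2 p'.1 q'.1`.  If `o p.1 q.1 = o p'.1 q'.1`
  then `J.conf` gives `p.1 = p'.1`, `q.1 = q'.1` and `pq` gives `P p.2 q.2 = P p'.2 q'.2` or
  `P q.2 p.2 = P q'.2 p'.2`; with `g' p.2 q.2 = g' p'.2 q'.2` (and `symm`) `Y.mate` finishes.  If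
  `o p.1 q.1 ≠ o p'.1 q'.1`: `P p.2 q.2 = P q'.2 p'.2` (or `P q.2 p.2 = P p'.2 q'.2`), so by
  `Y.mate` `p.2 = q'.2`, `q.2 = p'.2`; but `p.2` and `p'.2 = q.2` are both the `+` end of the same
  pair, a contradiction (`Y.split`).
-/

namespace Pool.Agent.Lib.MP_db622c_co.PT

open Pool.Agent.Lib.MP_db622c_co Pool.Agent.Lib.MP_db622c_co.CB

variable {A J N B Y R T : Type} [Zero A] [Zero N] [Zero B] [Zero R] [Fintype J] [Fintype Y]

theorem orth_key {S : A → J → ℤ} {g : J → J → A} {h : J → J → N} {M : J → J → A}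
    {h2 : J → J → N} {o : J → J → Bool} {S' : B → Y → ℤ} {g' : Y → Y → B} {r : Y → Y → R}
    {P : Y → Y → T} (HJ : JS S g h M h2 o) (HY : FS S' g' r P) (p q p' q' : J × Y)
    (h1 : p.1 ≠ q.1) (h1' : p'.1 ≠ q'.1) (h2p : p.2 ≠ q.2) (h2p' : p'.2 ≠ q'.2)
    (hp : S' (g' p.2 q.2) p.2 = 1) (hp' : S' (g' p'.2 q'.2) p'.2 = 1)
    (hG : GG g M S' g' p q = GG g M S' g' p' q') (hH : hq h h2 p q = hq h h2 p' q')
    (hP : pq o P p q = pq o P p' q') : p = p' ∧ q = q' := by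
  rw [GG_pos p q h2p hp, GG_pos p' q' h2p' hp'] at hG
  have hM : M p.1 q.1 = M p'.1 q'.1 := congrArg Prod.fst hG
  have hg : g' p.2 q.2 = g' p'.2 q'.2 := congrArg Prod.snd hG
  unfold hq at hH
  rw [if_neg h2p, if_neg h2p'] at hH
  unfold pq at hP
  -- the two ends exchanged: impossible
  have hex : ¬ (p.2 = q'.2 ∧ q.2 = p'.2) := by
    rintro ⟨e1, e2⟩
    rw [← e1, ← e2, HY.of_g.symm q.2 p.2, HY.split _ _ h2p, hp] at hp'
    norm_num at hp'
  cases ho : o p.1 q.1 <;> cases ho' : o p'.1 q'.1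
  · rw [ho, ho'] at hP
    have hP' : P q.2 p.2 = P q'.2 p'.2 := by simpa using hP
    obtain ⟨e1, e2⟩ := HJ.conf _ _ _ _ h1 h1' hM hH (by rw [ho, ho'])
    obtain ⟨e3, e4⟩ := HY.mate _ _ _ _
      (by rw [HY.of_g.symm q.2 p.2, HY.of_g.symm q'.2 p'.2]; exact hg) hP'
    exact ⟨Prod.ext e1 e4, Prod.ext e2 e3⟩
  · rw [ho, ho'] at hP
    have hP' : P q.2 p.2 = P p'.2 q'.2 := by simpa using hP
    obtain ⟨e3, e4⟩ := HY.mate _ _ _ _
      (by rw [HY.of_g.symm q.2 p.2]; exact hg) hP'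
    exact (hex ⟨e4, e3⟩).elim
  · rw [ho, ho'] at hP
    have hP' : P p.2 q.2 = P q'.2 p'.2 := by simpa using hP
    obtain ⟨e3, e4⟩ := HY.mate _ _ _ _
      (by rw [HY.of_g.symm q'.2 p'.2]; exact hg) hP'
    exact (hex ⟨e3, e4⟩).elim
  · rw [ho, ho'] at hP
    have hP' : P p.2 q.2 = P p'.2 q'.2 := by simpa using hP
    obtain ⟨e1, e2⟩ := HJ.conf _ _ _ _ h1 h1' hM hH (by rw [ho, ho'])
    obtain ⟨e3, e4⟩ := HY.mate _ _ _ _ hg hP'
    exact ⟨Prod.ext e1 e3, Prod.ext e2 e4⟩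

theorem isOrth_prod {S : A → J → ℤ} {g : J → J → A} {h : J → J → N} {M : J → J → A}
    {h2 : J → J → N} {o : J → J → Bool} {S' : B → Y → ℤ} {g' : Y → Y → B} {r : Y → Y → R}
    {P : Y → Y → T} (HJ : JS S g h M h2 o) (HY : FS S' g' r P) (z0 : {z : N // z ≠ 0}) :
    IsOrth (GG g M S' g') (RR z0 h h2 o r P) := by
  intro p q p' q' hpq hpq' hG hR
  have hsnd : g' p.2 q.2 = g' p'.2 q'.2 := by
    have := congrArg Prod.snd hG
    rwa [GG_snd HY.diag, GG_snd HY.diag] at this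
  rcases RR_eq HJ.of_h HJ.of_h2 z0 p q p' q' hR with ⟨h1, h1', h3⟩ | ⟨h1, h1', h3, h4⟩
  · have h5 : p.2 ≠ q.2 := fun hc => hpq (Prod.ext h1 hc)
    have h5' : p'.2 ≠ q'.2 := fun hc => hpq' (Prod.ext h1' hc)
    have hfst : ∀ a b : J × Y, a.1 = b.1 → a.2 ≠ b.2 →
        (GG g M S' g' a b).1 = M a.1 a.1 := by
      intro a b hab hab2
      by_cases h6 : S' (g' a.2 b.2) a.2 = 1
      · rw [GG_pos a b hab2 h6, ← hab]
      · rw [GG_neg a b hab2 h6, ← hab]
    have h6 := congrArg Prod.fst hG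
    rw [hfst p q h1 h5, hfst p' q' h1' h5'] at h6
    have h7 := HJ.mdiag _ _ h6
    rcases HY.orth _ _ _ _ h5 h5' hsnd h3 with h8 | h8
    · exact Or.inl (Prod.ext h7.symm h8)
    · exact Or.inr (Prod.ext (h7.symm.trans h1) h8)
  · by_cases h5 : p.2 = q.2
    · have h5' : p'.2 = q'.2 := by
        by_contra hc
        apply HY.of_g.ne _ _ hc
        rw [← hsnd, ← h5, HY.diag]
      rw [GG_eq p q h5, GG_eq p' q' h5'] at hG
      unfold hq at h3
      rw [if_pos h5, if_pos h5'] at h3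
      have hpq1 : ∀ a b : J × Y, a.2 = b.2 → pq o P a b = P a.2 a.2 := by
        intro a b hab
        unfold pq
        rw [← hab]
        split_ifs <;> rfl
      rw [hpq1 p q h5, hpq1 p' q' h5'] at h4
      have h6 := (HY.mate p.2 p.2 p'.2 p'.2 (by rw [HY.diag, HY.diag]) h4).1
      rcases HJ.orth _ _ _ _ h1 h1' (congrArg Prod.fst hG) h3 with h7 | h7
      · exact Or.inl (Prod.ext h7 h6.symm)
      · exact Or.inr (Prod.ext h7 (h6.symm.trans h5))
    · have h5' : p'.2 ≠ q'.2 := by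
        intro hc
        apply HY.of_g.ne _ _ h5
        rw [hsnd, ← hc, HY.diag]
      have hGs : ∀ a b : J × Y, GG g M S' g' a b = GG g M S' g' b a :=
        (isOF_GG HJ.of_g HJ.lat HY.isH HY.of_g HY.diag HY.split).symm
      have hqs : ∀ a b : J × Y, hq h h2 a b = hq h h2 b a := by
        intro a b
        unfold hq
        by_cases h6 : a.2 = b.2
        · rw [if_pos h6, if_pos h6.symm, HJ.of_h.symm]
        · rw [if_neg h6, if_neg (Ne.symm h6), HJ.of_h2.symm]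
      have pqs : ∀ a b : J × Y, a.1 ≠ b.1 → pq o P a b = pq o P b a := by
        intro a b hab
        unfold pq
        rw [HJ.anti a.1 b.1 hab]
        cases o a.1 b.1 <;> simp
      have hend : ∀ a b : J × Y, a.2 ≠ b.2 → ¬ S' (g' a.2 b.2) a.2 = 1 →
          S' (g' b.2 a.2) b.2 = 1 := by
        intro a b hab hn
        by_contra hc
        exact hn ((end_iff HY.isH HY.of_g HY.split hab).2 hc)
      by_cases hp : S' (g' p.2 q.2) p.2 = 1
      · by_cases hp' : S' (g' p'.2 q'.2) p'.2 = 1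
        · exact Or.inl (orth_key HJ HY p q p' q' h1 h1' h5 h5' hp hp' hG h3 h4).1.symm
        · have h6 := orth_key HJ HY p q q' p' h1 (Ne.symm h1') h5 (Ne.symm h5') hp
            (hend p' q' h5' hp') (hG.trans (hGs p' q')) (h3.trans (hqs p' q'))
            (h4.trans (pqs p' q' h1'))
          exact Or.inr h6.2.symm
      · by_cases hp' : S' (g' p'.2 q'.2) p'.2 = 1
        · have h6 := orth_key HJ HY q p p' q' (Ne.symm h1) h1' (Ne.symm h5) h5'
            (hend p q h5 hp) hp' ((hGs q p).trans hG) ((hqs q p).trans h3)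
            ((pqs q p (Ne.symm h1)).trans h4)
          exact Or.inr h6.1.symm
        · have h6 := orth_key HJ HY q p q' p' (Ne.symm h1) (Ne.symm h1') (Ne.symm h5)
            (Ne.symm h5') (hend p q h5 hp) (hend p' q' h5' hp')
            (((hGs q p).trans hG).trans (hGs p' q')) (((hqs q p).trans h3).trans (hqs p' q'))
            (((pqs q p (Ne.symm h1)).trans h4).trans (pqs p' q' h1'))
          exact Or.inl h6.2.symm

end Pool.Agent.Lib.MP_db622c_co.PT
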