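import Pool.Agent.Lib.MP_db622c_co.PT.ProdG

/-!
# PT-ProdP: the Latin square of the product

`PP PG PM S' g' P p q = (PG p.1 q.1, P p.2 q.2)` if `p.2 = q.2`, `(PM p.1 q.1, P p.2 q.2)` if `p.2`
is the `+` end, `(PM q.1 p.1, P p.2 q.2)` otherwise.
* `isLat_PP`: row: `PP p q = PP p q'` gives `q.2 = q'.2` (`hP.row`), so both are the same case of the
  definition and `hPG.row`, `hPM.row` or `hPM.col` gives `q.1 = q'.1`; col: the same.
* `isMate_PP`: the second components give `g' p.2 q.2 = g' p'.2 q'.2` (`GG_snd`) and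
  `P p.2 q.2 = P p'.2 q'.2`, so `p.2 = p'.2`, `q.2 = q'.2` (`hm`); both pairs are the same case of
  the definitions and `hmG` or `hmM` finishes.
-/

namespace Pool.Agent.Lib.MP_db622c_co.PT

open Pool.Agent.Lib.MP_db622c_co Pool.Agent.Lib.MP_db622c_co.CB

variable {A J B Y T U : Type} [Zero A] [Zero B] [Fintype J] [Fintype Y]

theorem isLat_PP {PG PM : J → J → U} {S' : B → Y → ℤ} {g' : Y → Y → B} {P : Y → Y → T}
    (hPG : IsLat PG) (hPM : IsLat PM) (hP : IsLat P) : IsLat (PP PG PM S' g' P) := by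
  refine ⟨?_, ?_⟩
  · intro p q q' he
    have h2 : q.2 = q'.2 := hP.row p.2 _ _ (congrArg Prod.snd he)
    have h1 := congrArg Prod.fst he
    unfold PP at h1
    rw [← h2] at h1
    refine Prod.ext ?_ h2
    simp only at h1
    split_ifs at h1
    · exact hPG.row _ _ _ h1
    · exact hPM.row _ _ _ h1
    · exact hPM.col _ _ _ h1
  · intro p p' q he
    have h2 : p.2 = p'.2 := hP.col _ _ q.2 (congrArg Prod.snd he)
    have h1 := congrArg Prod.fst he
    unfold PP at h1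
    rw [← h2] at h1
    refine Prod.ext ?_ h2
    simp only at h1
    split_ifs at h1
    · exact hPG.col _ _ _ h1
    · exact hPM.col _ _ _ h1
    · exact hPM.row _ _ _ h1

theorem isMate_PP {g M : J → J → A} {PG PM : J → J → U} {S' : B → Y → ℤ} {g' : Y → Y → B}
    {P : Y → Y → T} (hd : ∀ y, g' y y = 0) (hm : IsMate g' P) (hmG : IsMate g PG)
    (hmM : IsMate M PM) : IsMate (GG g M S' g') (PP PG PM S' g' P) := by
  intro p q p' q' hG hPP
  have h1 : g' p.2 q.2 = g' p'.2 q'.2 := by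
    have := congrArg Prod.snd hG
    rwa [GG_snd hd, GG_snd hd] at this
  obtain ⟨ha, hb⟩ := hm _ _ _ _ h1 (congrArg Prod.snd hPP)
  have h3 := congrArg Prod.fst hG
  have h4 := congrArg Prod.fst hPP
  unfold GG at h3
  unfold PP at h4
  rw [← ha, ← hb] at h3 h4
  simp only at h4
  split_ifs at h3 h4
  · obtain ⟨h5, h6⟩ := hmG _ _ _ _ h3 h4
    exact ⟨Prod.ext h5 ha, Prod.ext h6 hb⟩
  · obtain ⟨h5, h6⟩ := hmM _ _ _ _ h3 h4
    exact ⟨Prod.ext h5 ha, Prod.ext h6 hb⟩
  · obtain ⟨h5, h6⟩ := hmM _ _ _ _ h3 h4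
    exact ⟨Prod.ext h6 ha, Prod.ext h5 hb⟩

end Pool.Agent.Lib.MP_db622c_co.PT
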