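import Pool.Agent.Lib.MP_db622c_co.PT.Tens
import Pool.Agent.Lib.MP_db622c_co.PT.ProdO
import Pool.Agent.Lib.MP_db622c_co.PT.ProdP

/-!
# PT-Prod: the product theorem

Assembly of `isH_SS`, `isOF_GG`, `diag_GG`, `split_GG`, `isOF_RR`, `isOrth_prod`, `isLat_PP`,
`isMate_PP`.  The rows are `A × B`, the columns `J × Y`, the rounds `R ⊕ {z : N // z ≠ 0} × T` with
the zero `zR R N T`; their number is `n + (m - 1) * n = m * n` (`Fintype.card_subtype_compl`,
`Fintype.card_subtype_eq`; `m ≥ 2` gives `z0`).  `HasJSP m → HasFS m`: `r := h`, `P := PG`.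
-/

namespace Pool.Agent.Lib.MP_db622c_co.PT

open Pool.Agent.Lib.MP_db622c_co Pool.Agent.Lib.MP_db622c_co.CB

theorem hasJS_of_hasJSP {m : ℕ} (h : HasJSP m) : HasJS m := by
  obtain ⟨A, J, N, T, _, _, _, _, _, _, S, g, h, M, h2, o, PG, PM, hA, hJ, hN, hT, H, _⟩ := h
  exact ⟨A, J, N, _, _, _, _, _, S, g, h, M, h2, o, hA, hJ, hN, H⟩

theorem hasFS_of_hasJSP {m : ℕ} (h : HasJSP m) : HasFS m := by
  obtain ⟨A, J, N, T, _, _, _, _, _, _, S, g, h, M, h2, o, PG, PM, hA, hJ, hN, hT, H, hL, hM, _⟩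
    := h
  exact ⟨A, J, N, T, _, _, _, _, _, _, S, g, h, PG, hA, hJ, hN, hT,
    ⟨H.isH, H.of_g, H.diag, H.split, H.of_h, H.orth, hL, hM⟩⟩

theorem hasPD_of_hasFS {m : ℕ} (h : HasFS m) : HasPD m := by
  obtain ⟨A, J, M, T, _, _, _, _, _, _, S, g, r, P, hA, hJ, hM, hT, H⟩ := h
  exact ⟨A, J, M, _, _, _, _, _, S, g, r, hA, hJ, hM, H.isH, H.of_g, H.of_r, H.split, H.orth⟩

/-- the number of rounds -/
private theorem card_rounds {R N T : Type} [Zero N] [Fintype R] [Fintype N] [Fintype T]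
    [Fintype {z : N // z ≠ 0}]
    {m n : ℕ} (hm : 2 ≤ m) (hR : Fintype.card R = n) (hN : Fintype.card N = m)
    (hT : Fintype.card T = n) : Fintype.card (R ⊕ {z : N // z ≠ 0} × T) = m * n := by
  classical
  have h1 : Fintype.card {z : N // z ≠ 0} = m - 1 := by
    rw [Fintype.card_subtype_compl, Fintype.card_subtype_eq, hN]
  rw [Fintype.card_sum, Fintype.card_prod, h1, hR, hT]
  obtain ⟨k, rfl⟩ : ∃ k, m = k + 1 := ⟨m - 1, by omega⟩
  rw [Nat.add_sub_cancel]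
  ring

private theorem exists_z0 {N : Type} [Zero N] [Fintype N] {m : ℕ} (hm : 2 ≤ m)
    (hN : Fintype.card N = m) : Nonempty {z : N // z ≠ 0} := by
  have h1 : 1 < Fintype.card N := by omega
  obtain ⟨z, hz⟩ := Fintype.exists_ne_of_one_lt_card h1 (0 : N)
  exact ⟨⟨z, hz⟩⟩

theorem hasPD_mul {m n : ℕ} (hm : 2 ≤ m) (h : HasJS m) (h' : HasFS n) : HasPD (m * n) := by
  classical
  obtain ⟨A, J, N, _, _, _, _, _, S, g, h, M, h2, o, hA, hJ, hN, H⟩ := h
  obtain ⟨B, Y, R, T, _, _, _, _, _, _, S', g', r, P, hB, hY, hR, hT, H'⟩ := h'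
  obtain ⟨z0⟩ := exists_z0 hm hN
  refine ⟨A × B, J × Y, R ⊕ {z : N // z ≠ 0} × T, inferInstance, zR R N T, inferInstance,
    inferInstance, inferInstance, SS S S', GG g M S' g', RR z0 h h2 o r P, ?_, ?_, ?_,
    isH_SS H.isH H'.isH, isOF_GG H.of_g H.lat H'.isH H'.of_g H'.diag H'.split,
    isOF_RR H.of_h H.of_h2 H.anti H'.of_r H'.lat z0, split_GG H.split H.nonsep H'.isH H'.split,
    isOrth_prod H H' z0⟩
  · rw [Fintype.card_prod, hA, hB]
  · rw [Fintype.card_prod, hJ, hY]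
  · exact card_rounds hm hR hN hT

theorem hasFS_mul {m n : ℕ} (hm : 2 ≤ m) (h : HasJSP m) (h' : HasFS n) : HasFS (m * n) := by
  classical
  obtain ⟨A, J, N, U, _, _, _, _, _, _, S, g, h, M, h2, o, PG, PM, hA, hJ, hN, hU, H, hL, hG,
    hL2, hM2⟩ := h
  obtain ⟨B, Y, R, T, _, _, _, _, _, _, S', g', r, P, hB, hY, hR, hT, H'⟩ := h'
  obtain ⟨z0⟩ := exists_z0 hm hN
  let _ := zR R N T
  refine ⟨A × B, J × Y, R ⊕ {z : N // z ≠ 0} × T, U × T, inferInstance, zR R N T, inferInstance,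
    inferInstance, inferInstance, inferInstance, SS S S', GG g M S' g', RR z0 h h2 o r P,
    PP PG PM S' g' P, ?_, ?_, ?_, ?_,
    { isH := isH_SS H.isH H'.isH
      of_g := isOF_GG H.of_g H.lat H'.isH H'.of_g H'.diag H'.split
      diag := diag_GG H.diag
      split := split_GG H.split H.nonsep H'.isH H'.split
      of_r := isOF_RR H.of_h H.of_h2 H.anti H'.of_r H'.lat z0
      orth := isOrth_prod H H' z0
      lat := isLat_PP hL hL2 H'.lat
      mate := isMate_PP H'.diag H'.mate hG hM2 }⟩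
  · rw [Fintype.card_prod, hA, hB]
  · rw [Fintype.card_prod, hJ, hY]
  · exact card_rounds hm hR hN hT
  · rw [Fintype.card_prod, hU, hT]

end Pool.Agent.Lib.MP_db622c_co.PT
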