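import Pool.Agent.Lib.MP_db622c_co.PT.Defs

/-!
# PT-ProdG: the boards of the product

`GG g M S' g' p q` is `(g p.1 q.1, 0)` if `p.2 = q.2`, else `(M p.1 q.1, g' p.2 q.2)` if `p.2` is
the `+` end of `{p.2, q.2}` (`S' (g' p.2 q.2) p.2 = 1`), else `(M q.1 p.1, g' p.2 q.2)`.
For `p.2 ≠ q.2` exactly one of `p.2`, `q.2` is the `+` end (`hs` and `hS'.sign`).
* `GG_snd`: `(GG g M S' g' p q).2 = g' p.2 q.2` (if `p.2 = q.2` by `hd`).
* `isOF_GG`: ne: `p.2 = q.2` and `p.1 ≠ q.1` give `g p.1 q.1 ≠ 0`; else `g' p.2 q.2 ≠ 0`.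
  symm: `hg.symm`, `hg'.symm`, and swapping the two points swaps the `+` end.
  inj: `GG p q = GG p q'`, `q, q' ≠ p`.  The second components agree: `g' p.2 q.2 = g' p.2 q'.2`;
  `hg'.ne`, `hd` show that `q.2 = p.2` iff `q'.2 = p.2`.  If `q.2 = p.2 = q'.2` use `hg.inj`.  Else
  `hg'.inj` gives `q.2 = q'.2`; then the same case of the definition and `hM.row` or `hM.col`.
* `split_GG`: `p.2 = q.2`: `S' 0 _ = 1` and `hsg`; else `hn` (the entry of `M` does not separate) and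
  `hs`.
-/

namespace Pool.Agent.Lib.MP_db622c_co.PT

open Pool.Agent.Lib.MP_db622c_co Pool.Agent.Lib.MP_db622c_co.CB

variable {A J B Y : Type} [Zero A] [Zero B] [Fintype J] [Fintype Y]

theorem GG_eq {g M : J → J → A} {S' : B → Y → ℤ} {g' : Y → Y → B} (p q : J × Y)
    (h : p.2 = q.2) : GG g M S' g' p q = (g p.1 q.1, 0) := by
  unfold GG
  rw [if_pos h]

theorem GG_pos {g M : J → J → A} {S' : B → Y → ℤ} {g' : Y → Y → B} (p q : J × Y)
    (h : p.2 ≠ q.2) (h1 : S' (g' p.2 q.2) p.2 = 1) :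
    GG g M S' g' p q = (M p.1 q.1, g' p.2 q.2) := by
  unfold GG
  rw [if_neg h, if_pos h1]

theorem GG_neg {g M : J → J → A} {S' : B → Y → ℤ} {g' : Y → Y → B} (p q : J × Y)
    (h : p.2 ≠ q.2) (h1 : S' (g' p.2 q.2) p.2 ≠ 1) :
    GG g M S' g' p q = (M q.1 p.1, g' p.2 q.2) := by
  unfold GG
  rw [if_neg h, if_neg h1]

theorem GG_snd {g M : J → J → A} {S' : B → Y → ℤ} {g' : Y → Y → B} (hd : ∀ y, g' y y = 0)
    (p q : J × Y) : (GG g M S' g' p q).2 = g' p.2 q.2 := by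
  by_cases h : p.2 = q.2
  · rw [GG_eq p q h, h, hd]
  · by_cases h1 : S' (g' p.2 q.2) p.2 = 1
    · rw [GG_pos p q h h1]
    · rw [GG_neg p q h h1]

/-- exactly one end is the `+` end -/
theorem end_iff {S' : B → Y → ℤ} {g' : Y → Y → B} (hS' : IsH S') (hg' : IsOF g')
    (hs : IsSplit S' g') {y y' : Y} (h : y ≠ y') :
    S' (g' y y') y = 1 ↔ S' (g' y' y) y' ≠ 1 := by
  have h1 := hs y y' h
  rw [hg'.symm y' y, h1]
  rcases hS'.sign (g' y y') y with h2 | h2 <;> rw [h2] <;> norm_num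

theorem isOF_GG {g M : J → J → A} {S' : B → Y → ℤ} {g' : Y → Y → B} (hg : IsOF g)
    (hM : IsLat M) (hS' : IsH S') (hg' : IsOF g') (hd : ∀ y, g' y y = 0)
    (hs : IsSplit S' g') : IsOF (GG g M S' g') := by
  refine ⟨?_, ?_, ?_⟩
  · intro p q hpq h0
    by_cases h : p.2 = q.2
    · rw [GG_eq p q h] at h0
      exact hg.ne p.1 q.1 (fun hc => hpq (Prod.ext hc h)) (congrArg Prod.fst h0)
    · have h1 := congrArg Prod.snd h0
      rw [GG_snd hd] at h1
      exact hg'.ne _ _ h h1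
  · intro p q
    by_cases h : p.2 = q.2
    · rw [GG_eq p q h, GG_eq q p h.symm, hg.symm]
    · by_cases h1 : S' (g' p.2 q.2) p.2 = 1
      · have h2 := (end_iff hS' hg' hs h).1 h1
        rw [GG_pos p q h h1, GG_neg q p (Ne.symm h) h2, hg'.symm]
      · have h2 : S' (g' q.2 p.2) q.2 = 1 := by
          by_contra hc
          exact h1 ((end_iff hS' hg' hs h).2 hc)
        rw [GG_neg p q h h1, GG_pos q p (Ne.symm h) h2, hg'.symm]
  · intro p q q' hq hq' he
    have h2 : g' p.2 q.2 = g' p.2 q'.2 := by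
      have := congrArg Prod.snd he
      rwa [GG_snd hd, GG_snd hd] at this
    by_cases h : p.2 = q.2
    · have h' : p.2 = q'.2 := by
        by_contra hc
        apply hg'.ne _ _ hc
        rw [← h2, ← h, hd]
      rw [GG_eq p q h, GG_eq p q' h'] at he
      have h3 := hg.inj p.1 q.1 q'.1 (fun hc => hq (Prod.ext hc h.symm))
        (fun hc => hq' (Prod.ext hc h'.symm)) (congrArg Prod.fst he)
      exact Prod.ext h3 (h.symm.trans h')
    · have h' : p.2 ≠ q'.2 := by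
        intro hc
        apply hg'.ne _ _ h
        rw [h2, ← hc, hd]
      have h3 := hg'.inj _ _ _ (Ne.symm h) (Ne.symm h') h2
      by_cases h1 : S' (g' p.2 q.2) p.2 = 1
      · have h1' : S' (g' p.2 q'.2) p.2 = 1 := by rw [← h2]; exact h1
        rw [GG_pos p q h h1, GG_pos p q' h' h1'] at he
        exact Prod.ext (hM.row _ _ _ (congrArg Prod.fst he)) h3
      · have h1' : S' (g' p.2 q'.2) p.2 ≠ 1 := by rw [← h2]; exact h1
        rw [GG_neg p q h h1, GG_neg p q' h' h1'] at he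
        exact Prod.ext (hM.col _ _ _ (congrArg Prod.fst he)) h3

theorem diag_GG {g M : J → J → A} {S' : B → Y → ℤ} {g' : Y → Y → B} (hdg : ∀ x, g x x = 0)
    (p : J × Y) : GG g M S' g' p p = 0 := by
  rw [GG_eq p p rfl, hdg]
  rfl

theorem split_GG {S : A → J → ℤ} {g M : J → J → A} {S' : B → Y → ℤ} {g' : Y → Y → B}
    (hsg : IsSplit S g) (hn : ∀ x y, S (M x y) x = S (M x y) y) (hS' : IsH S')
    (hs : IsSplit S' g') : IsSplit (SS S S') (GG g M S' g') := by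
  intro p q hpq
  unfold SS
  by_cases h : p.2 = q.2
  · rw [GG_eq p q h]
    have h1 : p.1 ≠ q.1 := fun hc => hpq (Prod.ext hc h)
    show S (g p.1 q.1) q.1 * S' 0 q.2 = -(S (g p.1 q.1) p.1 * S' 0 p.2)
    rw [hsg _ _ h1, hS'.one, hS'.one]
    ring
  · by_cases h1 : S' (g' p.2 q.2) p.2 = 1
    · rw [GG_pos p q h h1]
      show S (M p.1 q.1) q.1 * S' (g' p.2 q.2) q.2 = -(S (M p.1 q.1) p.1 * S' (g' p.2 q.2) p.2)
      rw [hs _ _ h, hn p.1 q.1]
      ring
    · rw [GG_neg p q h h1]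
      show S (M q.1 p.1) q.1 * S' (g' p.2 q.2) q.2 = -(S (M q.1 p.1) p.1 * S' (g' p.2 q.2) p.2)
      rw [hs _ _ h, hn q.1 p.1]
      ring

end Pool.Agent.Lib.MP_db622c_co.PT
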