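import Pool.Agent.Lib.MP_db622c_co.PT.Defs

/-!
# PT-TIC: the orientation

`orV ω`: `(∞, _) ↦ false`, `(x, ∞) ↦ true`, `(x, y) ↦ ω (y - x)`.
* anti: `H.anti`.
* conf: let `M = sqV z e s t`, `h2 = ofV x0 τ`, two cells off the diagonal with the same entries and
  the same orientation.  If the entry of `M` is `none`, the cells are `(x, x + e)`, `(x', x' + e)` and
  the classes of `h2` are `x - τ e`, `x' - τ e`.  If it is `some a`: the class of `h2` minus `a` is
  `t - x0` at `(∞, y)` (orientation `false`), `s - x0` at `(x, ∞)` (orientation `true`),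
  `z d - τ d` at `(x, y)`, `d = y - x ≠ 0, e`, orientation `ω d`.  Use `H.inj`, `H.ns`, `H.nt`.
-/

namespace Pool.Agent.Lib.MP_db622c_co.PT

open Pool.Agent.Lib.MP_db622c_co Pool.Agent.Lib.MP_db622c_co.CB

variable {V : Type} [AddCommGroup V] [DecidableEq V]

theorem anti_orV {x0 : V} {τ : V → V} {ω : V → Bool} {z : V → V} {e s t : V}
    (H : CfOK x0 τ ω z e s t) (x y : Option V) (h : x ≠ y) : orV ω y x = !(orV ω x y) := by
  rcases x with _ | x <;> rcases y with _ | y
  · exact absurd rfl h
  · rfl
  · rfl
  · have hd : y - x ≠ 0 := fun k => h (by rw [sub_eq_zero.1 k])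
    have := H.anti _ hd
    rw [neg_sub] at this
    exact this

private theorem tic_AC {x0 : V} {τ : V → V} {ω : V → Bool} {z : V → V} {e s t : V}
    (H : CfOK x0 τ ω z e s t) (y x' y' : V) (h' : x' ≠ y')
    (hM : sqV z e s t none (some y) = sqV z e s t (some x') (some y'))
    (hh : ofV x0 τ none (some y) = ofV x0 τ (some x') (some y'))
    (ho : false = ω (y' - x')) : False := by
  have hd : y' - x' ≠ 0 := fun k => h' (sub_eq_zero.1 k).symm
  simp only [sqV, ofV, if_neg h'] at hM hh
  by_cases he : y' - x' = e
  · rw [if_pos he] at hM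
    exact Option.some_ne_none _ hM
  · rw [if_neg he] at hM
    have h1 := Option.some.inj hM
    have h2 := Option.some.inj hh
    have h3 : z (y' - x') - τ (y' - x') = t - x0 := by
      linear_combination (norm := abel) h1 - h2
    have h4 := H.nt _ hd he h3
    rw [h4] at ho
    exact absurd ho (by decide)

private theorem tic_BC {x0 : V} {τ : V → V} {ω : V → Bool} {z : V → V} {e s t : V}
    (H : CfOK x0 τ ω z e s t) (x x' y' : V) (h' : x' ≠ y')
    (hM : sqV z e s t (some x) none = sqV z e s t (some x') (some y'))
    (hh : ofV x0 τ (some x) none = ofV x0 τ (some x') (some y'))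
    (ho : true = ω (y' - x')) : False := by
  have hd : y' - x' ≠ 0 := fun k => h' (sub_eq_zero.1 k).symm
  simp only [sqV, ofV, if_neg h'] at hM hh
  by_cases he : y' - x' = e
  · rw [if_pos he] at hM
    exact Option.some_ne_none _ hM
  · rw [if_neg he] at hM
    have h1 := Option.some.inj hM
    have h2 := Option.some.inj hh
    have h3 : z (y' - x') - τ (y' - x') = s - x0 := by
      linear_combination (norm := abel) h1 - h2
    have h4 := H.ns _ hd he h3
    rw [h4] at ho
    exact absurd ho (by decide)

private theorem tic_CC {x0 : V} {τ : V → V} {ω : V → Bool} {z : V → V} {e s t : V}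
    (H : CfOK x0 τ ω z e s t) (x y x' y' : V) (h : x ≠ y) (h' : x' ≠ y')
    (hM : sqV z e s t (some x) (some y) = sqV z e s t (some x') (some y'))
    (hh : ofV x0 τ (some x) (some y) = ofV x0 τ (some x') (some y'))
    (ho : ω (y - x) = ω (y' - x')) : x = x' ∧ y = y' := by
  have hd : y - x ≠ 0 := fun k => h (sub_eq_zero.1 k).symm
  have hd' : y' - x' ≠ 0 := fun k => h' (sub_eq_zero.1 k).symm
  simp only [sqV, ofV, if_neg h, if_neg h'] at hM hh
  have h2 := Option.some.inj hh
  have key : y - x = y' - x' → x = x' ∧ y = y' := by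
    intro k
    rw [k] at h2
    have h3 : x = x' := by linear_combination (norm := abel) h2
    subst h3
    refine ⟨rfl, ?_⟩
    linear_combination (norm := abel) k
  by_cases he : y - x = e <;> by_cases he' : y' - x' = e
  · exact key (he.trans he'.symm)
  · rw [if_pos he, if_neg he'] at hM
    exact absurd hM.symm (Option.some_ne_none _)
  · rw [if_neg he, if_pos he'] at hM
    exact absurd hM (Option.some_ne_none _)
  · rw [if_neg he, if_neg he'] at hM
    have h1 := Option.some.inj hM
    refine key (H.inj _ _ hd hd' he he' ?_ ho)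
    linear_combination (norm := abel) h2 - h1

theorem conf_orV {x0 : V} {τ : V → V} {ω : V → Bool} {z : V → V} {e s t : V}
    (H : CfOK x0 τ ω z e s t) (x y x' y' : Option V) (h : x ≠ y) (h' : x' ≠ y')
    (hM : sqV z e s t x y = sqV z e s t x' y') (hh : ofV x0 τ x y = ofV x0 τ x' y')
    (ho : orV ω x y = orV ω x' y') : x = x' ∧ y = y' := by
  rcases x with _ | x <;> rcases y with _ | y <;> rcases x' with _ | x' <;> rcases y' with _ | y'
  -- none none
  · exact absurd rfl h
  · exact absurd rfl h
  · exact absurd rfl h
  · exact absurd rfl h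
  -- none (some y)
  · exact absurd rfl h'
  · have h1 : y - t = y' - t := Option.some.inj hM
    have h2 : y = y' := by linear_combination (norm := abel) h1
    exact ⟨rfl, by rw [h2]⟩
  · exact absurd (show false = true from ho) (by decide)
  · exact (tic_AC H y x' y' (fun k => h' (by rw [k])) hM hh ho).elim
  -- (some x) none
  · exact absurd rfl h'
  · exact absurd (show true = false from ho) (by decide)
  · have h1 : x - s = x' - s := Option.some.inj hM
    have h2 : x = x' := by linear_combination (norm := abel) h1
    exact ⟨by rw [h2], rfl⟩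
  · exact (tic_BC H x x' y' (fun k => h' (by rw [k])) hM hh ho).elim
  -- (some x) (some y)
  · exact absurd rfl h'
  · exact (tic_AC H y' x y (fun k => h (by rw [k])) hM.symm hh.symm
      (show false = ω (y - x) from ho.symm)).elim
  · exact (tic_BC H x' x y (fun k => h (by rw [k])) hM.symm hh.symm
      (show true = ω (y - x) from ho.symm)).elim
  · obtain ⟨h1, h2⟩ := tic_CC H x y x' y' (fun k => h (by rw [k])) (fun k => h' (by rw [k])) hM hh ho
    exact ⟨by rw [h1], by rw [h2]⟩

end Pool.Agent.Lib.MP_db622c_co.PT
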