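import Pool.Agent.Lib.MP_db622c_co.PT.Defs

/-!
# PT-TIG: the translation invariant one-factorization of a starter

`ofV x0 τ`: `(∞, y) ↦ some (y - x0)`, `(x, ∞) ↦ some (x - x0)`, `(x, y) ↦ some (x - τ (y - x))` for
`x ≠ y`, the diagonal `↦ none = 0`.
* ne: the value is `some _`.  symm: `x - τ (y - x) = y - τ (x - y)` from `H.neg (y - x)`.
* inj: row `∞`: clear.  Row `x`: `x - x0 = x - τ d` contradicts `H.ne`; `x - τ d = x - τ d'` gives
  `d = d'` (`H.inj`, `d = y - x ≠ 0`).
* split: at a finite class `a` the sign at `x` is `chi1 χ (x - a)`: pair `(∞, y)`, `a = y - x0`: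
  signs `1` and `chi1 χ x0 = -1`; pair `(x, y)`, `d = y - x`, `a = x - τ d`: signs `chi1 χ (τ d)`
  and `chi1 χ (τ d + d)`.
* orthogonality: let `(x, y)`, `(x', y')` have the same classes in both.  For a pair of finite points
  the difference of the class in `ofV x1 σ` and the class in `ofV x0 τ` is `τ d - σ d`; for a pair
  with `∞` it is `x0 - x1`.  `H.inf`: not one of each kind.  Two pairs with `∞` and the same class
  have the same finite point.  Two finite pairs: `d' = d` (then `x = x'`) or `d' = -d` (then
  `x' = x + d = y`, by `neg`), from `H.fin`.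
-/

namespace Pool.Agent.Lib.MP_db622c_co.PT

open Pool.Agent.Lib.MP_db622c_co Pool.Agent.Lib.MP_db622c_co.CB

variable {V : Type} [AddCommGroup V] [DecidableEq V]

private theorem of_fin {x0 : V} {τ : V → V} {x y : V} (h : x ≠ y) :
    ofV x0 τ (some x) (some y) = some (x - τ (y - x)) := by
  show (if x = y then none else some (x - τ (y - x)) : Option V) = _
  rw [if_neg h]

private theorem of_eq {x0 : V} {τ : V → V} {x y : V} (h : x = y) :
    ofV x0 τ (some x) (some y) = none := by
  show (if x = y then none else some (x - τ (y - x)) : Option V) = _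
  rw [if_pos h]

private theorem of_r {x0 : V} {τ : V → V} {x : V} : ofV x0 τ (some x) none = some (x - x0) := rfl

private theorem of_l {x0 : V} {τ : V → V} {y : V} : ofV x0 τ none (some y) = some (y - x0) := rfl

theorem isOF_ofV {x0 : V} {τ : V → V} (H : StOK x0 τ) : IsOF (ofV x0 τ) := by
  refine ⟨?_, ?_, ?_⟩
  · intro j k hjk h0
    change ofV x0 τ j k = none at h0
    rcases j with _ | x <;> rcases k with _ | y
    · exact hjk rfl
    · rw [of_l] at h0; exact absurd h0 (by simp)
    · rw [of_r] at h0; exact absurd h0 (by simp)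
    · rw [of_fin (fun h => hjk (congrArg some h))] at h0
      exact absurd h0 (by simp)
  · intro j k
    rcases j with _ | x <;> rcases k with _ | y
    · rfl
    · rfl
    · rfl
    · by_cases h : x = y
      · rw [of_eq h, of_eq h.symm]
      · rw [of_fin h, of_fin (Ne.symm h)]
        have h1 := H.neg (y - x) (sub_ne_zero.2 (Ne.symm h))
        rw [neg_sub] at h1
        rw [h1]
        congr 1
        abel
  · intro j k k' hk hk' he
    rcases j with _ | x
    · rcases k with _ | y
      · exact absurd rfl hk
      · rcases k' with _ | y'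
        · exact absurd rfl hk'
        · rw [of_l, of_l] at he
          rw [sub_left_inj.1 (Option.some.inj he)]
    · have key : ∀ y : V, x ≠ y → ofV x0 τ (some x) none = ofV x0 τ (some x) (some y) → False := by
        intro y hy h
        rw [of_r, of_fin hy] at h
        exact H.ne _ (sub_ne_zero.2 (Ne.symm hy)) (sub_right_inj.1 (Option.some.inj h)).symm
      have hne : ∀ y : V, some y ≠ some x → x ≠ y := fun y h h' => h (congrArg some h'.symm)
      rcases k with _ | y <;> rcases k' with _ | y'
      · rfl
      · exact (key _ (hne _ hk') he).elim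
      · exact (key _ (hne _ hk) he.symm).elim
      · have h := hne _ hk
        have h' := hne _ hk'
        rw [of_fin h, of_fin h'] at he
        have h1 := H.inj _ _ (sub_ne_zero.2 (Ne.symm h)) (sub_ne_zero.2 (Ne.symm h'))
          (sub_right_inj.1 (Option.some.inj he))
        rw [sub_left_inj.1 h1]

theorem diag_ofV (x0 : V) (τ : V → V) (j : Option V) : ofV x0 τ j j = 0 := by
  rcases j with _ | x
  · rfl
  · exact of_eq rfl

theorem split_ofV {χ : V → ℤ} {x0 : V} {τ : V → V} (H : SepOK χ x0 τ) :
    IsSplit (SV χ) (ofV x0 τ) := by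
  intro j k hjk
  rcases j with _ | x <;> rcases k with _ | y
  · exact absurd rfl hjk
  · rw [of_l]
    show chi1 χ (y - (y - x0)) = -1
    rw [sub_sub_cancel, H.inf]
  · rw [of_r]
    show (1 : ℤ) = - chi1 χ (x - (x - x0))
    rw [sub_sub_cancel, H.inf]
    norm_num
  · have h : x ≠ y := fun h => hjk (congrArg some h)
    rw [of_fin h]
    show chi1 χ (y - (x - τ (y - x))) = - chi1 χ (x - (x - τ (y - x)))
    have h1 : y - (x - τ (y - x)) = τ (y - x) + (y - x) := by abel
    rw [sub_sub_cancel, h1, H.fin _ (sub_ne_zero.2 (Ne.symm h))]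

theorem isOrth_ofV {x0 : V} {τ : V → V} {x1 : V} {σ : V → V} (H0 : StOK x0 τ)
    (H1 : StOK x1 σ) (H : OrOK x0 τ x1 σ) : IsOrth (ofV x0 τ) (ofV x1 σ) := by
  intro j k j' k' hjk hjk' hg hr
  -- a pair with the infinite point
  have inf2 : ∀ x x' : V, (some (x - x0) : Option V) = some (x' - x0) → x' = x := by
    intro x x' h
    exact (sub_left_inj.1 (Option.some.inj h)).symm
  have mixed : ∀ x y z : V, x ≠ y → (some (x - τ (y - x)) : Option V) = some (z - x0) →
      (some (x - σ (y - x)) : Option V) = some (z - x1) → False := by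
    intro x y z hxy h h'
    have h1 := Option.some.inj h
    have h2 := Option.some.inj h'
    apply H.inf _ (sub_ne_zero.2 (Ne.symm hxy))
    have h3 : τ (y - x) - σ (y - x) = (x - σ (y - x)) - (x - τ (y - x)) := by abel
    rw [h3, h1, h2]
    abel
  rcases j with _ | x <;> rcases k with _ | y <;> rcases j' with _ | x' <;> rcases k' with _ | y'
  · exact absurd rfl hjk
  · exact absurd rfl hjk
  · exact absurd rfl hjk
  · exact absurd rfl hjk
  · exact absurd rfl hjk'
  · exact Or.inl rfl
  · rw [of_l, of_r] at hg
    exact Or.inr (congrArg some (inf2 _ _ hg))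
  · have h : x' ≠ y' := fun h => hjk' (congrArg some h)
    rw [of_l, of_fin h] at hg hr
    exact (mixed _ _ _ h hg.symm hr.symm).elim
  · exact absurd rfl hjk'
  · exact Or.inr rfl
  · rw [of_r, of_r] at hg
    exact Or.inl (congrArg some (inf2 _ _ hg))
  · have h : x' ≠ y' := fun h => hjk' (congrArg some h)
    rw [of_r, of_fin h] at hg hr
    exact (mixed _ _ _ h hg.symm hr.symm).elim
  · exact absurd rfl hjk'
  · have h : x ≠ y := fun h => hjk (congrArg some h)
    rw [of_fin h, of_l] at hg hr
    exact (mixed _ _ _ h hg hr).elim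
  · have h : x ≠ y := fun h => hjk (congrArg some h)
    rw [of_fin h, of_r] at hg hr
    exact (mixed _ _ _ h hg hr).elim
  · have h : x ≠ y := fun h => hjk (congrArg some h)
    have h' : x' ≠ y' := fun h => hjk' (congrArg some h)
    have hd := sub_ne_zero.2 (Ne.symm h)
    have hd' := sub_ne_zero.2 (Ne.symm h')
    rw [of_fin h, of_fin h'] at hg hr
    have h1 := Option.some.inj hg
    have h2 := Option.some.inj hr
    have h3 : τ (y - x) - σ (y - x) = τ (y' - x') - σ (y' - x') := by
      have e1 : τ (y - x) - σ (y - x) = (x - σ (y - x)) - (x - τ (y - x)) := by abel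
      have e2 : τ (y' - x') - σ (y' - x') = (x' - σ (y' - x')) - (x' - τ (y' - x')) := by abel
      rw [e1, e2, h1, h2]
    rcases H.fin _ _ hd hd' h3 with h4 | h4
    · left
      rw [h4] at h1
      rw [sub_left_inj.1 h1]
    · right
      rw [h4, H0.neg _ hd] at h1
      have h5 : x' = y := by
        have e1 : x' - (τ (y - x) + (y - x)) = (x' - y) + (x - τ (y - x)) := by abel
        rw [e1] at h1
        have h6 := right_eq_add.1 h1
        exact sub_eq_zero.1 h6
      rw [h5]

end Pool.Agent.Lib.MP_db622c_co.PT
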