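import Pool.Agent.Lib.MP_db622c_co.PT.Defs

/-!
# PT-TIM: orthogonal translation invariant squares

`ofV x0 τ` and `P = sqV z e s t`.  Let two cells have the same class in both.
* class `none` of `ofV`: the diagonal, where `P` has the entries `none` at `(∞, ∞)` and
  `some (x - z 0)` at `(x, x)` (`e ≠ 0`, `H1.e0`).
* class `some a`: the cells `(∞, y)`, `a = y - x0`, `P = some (a + (x0 - t))`; `(x, ∞)`,
  `a = x - x0`, `P = some (a + (x0 - s))`; `(x, y)`, `d = y - x ≠ 0`, `a = x - τ d`, `P = none` if
  `d = e`, else `P = some (a + (τ d - z d))`.  Use `H.st`, `H.ns`, `H.nt`, `H.inj`; the cell is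
  determined by `a` and its kind (and `d`).

`M = sqV z' e' s' t'` and `P = sqV z e s t`:
* class `none` of `M`: `(∞, ∞)`, `P = none`; `(x, x + e')`, `P = some (x - z e')` (`e' ≠ e`, `H.ee`).
* class `some a`: `(∞, y)`, `a = y - t'`, `P = some (a + (t' - t))`; `(x, ∞)`, `a = x - s'`,
  `P = some (a + (s' - s))`; `(x, y)`, `d ≠ e'`, `a = x - z' d`, `P = none` if `d = e`, else
  `P = some (a + (z' d - z d))`.
-/

namespace Pool.Agent.Lib.MP_db622c_co.PT

open Pool.Agent.Lib.MP_db622c_co Pool.Agent.Lib.MP_db622c_co.CB

variable {V : Type} [AddCommGroup V] [DecidableEq V]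

private theorem sq_e {z : V → V} {e s t : V} {x y : V} (h : y - x = e) :
    sqV z e s t (some x) (some y) = none := by
  show (if y - x = e then none else some (x - z (y - x)) : Option V) = none
  rw [if_pos h]

private theorem sq_ne {z : V → V} {e s t : V} {x y : V} (h : y - x ≠ e) :
    sqV z e s t (some x) (some y) = some (x - z (y - x)) := by
  show (if y - x = e then none else some (x - z (y - x)) : Option V) = _
  rw [if_neg h]

private theorem sq_r {z : V → V} {e s t : V} {x : V} :
    sqV z e s t (some x) none = some (x - s) := rfl

private theorem sq_l {z : V → V} {e s t : V} {y : V} :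
    sqV z e s t none (some y) = some (y - t) := rfl

private theorem sq_i {z : V → V} {e s t : V} :
    sqV z e s t none none = none := rfl

private theorem of_fin {x0 : V} {τ : V → V} {x y : V} (h : x ≠ y) :
    ofV x0 τ (some x) (some y) = some (x - τ (y - x)) := by
  show (if x = y then none else some (x - τ (y - x)) : Option V) = _
  rw [if_neg h]

private theorem of_eq {x0 : V} {τ : V → V} {x y : V} (h : x = y) :
    ofV x0 τ (some x) (some y) = none := by
  show (if x = y then none else some (x - τ (y - x)) : Option V) = _
  rw [if_pos h]

private theorem of_r {x0 : V} {τ : V → V} {x : V} : ofV x0 τ (some x) none = some (x - x0) := rfl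

private theorem of_l {x0 : V} {τ : V → V} {y : V} : ofV x0 τ none (some y) = some (y - x0) := rfl

private theorem of_i {x0 : V} {τ : V → V} : ofV x0 τ none none = none := rfl

private theorem diff {a b c a' b' c' : V} (h : a - b = a' - b') (h' : a - c = a' - c') :
    b - c = b' - c' := by
  have e1 : b - c = (a - c) - (a - b) := by abel
  have e2 : b' - c' = (a' - c') - (a' - b') := by abel
  rw [e1, e2, h, h']

theorem isMate_of_Mg {x0 : V} {τ : V → V} {z : V → V} {e s t : V} (H1 : SqOK z e s t)
    (H : MgOK x0 τ z e s t) : IsMate (ofV x0 τ) (sqV z e s t) := by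
  intro j k j' k' hg hp
  -- the diagonal
  have dg : ∀ a b : Option V, ofV x0 τ a b = none → a = b := by
    intro a b h
    rcases a with _ | x <;> rcases b with _ | y
    · rfl
    · rw [of_l] at h; exact absurd h (by simp)
    · rw [of_r] at h; exact absurd h (by simp)
    · by_contra hc
      rw [of_fin (fun h => hc (congrArg some h))] at h
      exact absurd h (by simp)
  by_cases h0 : ofV x0 τ j k = none
  · have h1 := dg _ _ h0
    have h2 := dg _ _ (hg ▸ h0)
    subst h1 h2
    have hd : ∀ x : V, sqV z e s t (some x) (some x) = some (x - z 0) := by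
      intro x
      have h1 : x - x ≠ e := by
        rw [sub_self]
        exact H1.e0.symm
      rw [sq_ne h1, sub_self]
    have h3 : j = j' := by
      rcases j with _ | x <;> rcases j' with _ | y
      · rfl
      · rw [sq_i, hd] at hp; exact absurd hp (by simp)
      · rw [sq_i, hd] at hp; exact absurd hp (by simp)
      · rw [hd, hd] at hp
        rw [sub_left_inj.1 (Option.some.inj hp)]
    exact ⟨h3, h3⟩
  · have h0' : ofV x0 τ j' k' ≠ none := fun h => h0 (hg.trans h)
    rcases j with _ | x <;> rcases k with _ | y
    · exact absurd of_i h0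
    · rcases j' with _ | x' <;> rcases k' with _ | y'
      · exact absurd of_i h0'
      · rw [of_l, of_l] at hg
        exact ⟨rfl, by rw [sub_left_inj.1 (Option.some.inj hg)]⟩
      · rw [of_l, of_r] at hg
        rw [sq_l, sq_r] at hp
        exact absurd (sub_right_inj.1 (diff (Option.some.inj hg) (Option.some.inj hp))).symm H.st
      · have h : x' ≠ y' := fun h => h0' (of_eq h)
        rw [of_l, of_fin h] at hg
        by_cases he : y' - x' = e
        · rw [sq_l, sq_e he] at hp; exact absurd hp (by simp)
        · rw [sq_l, sq_ne he] at hp
          exact absurd (diff (Option.some.inj hg) (Option.some.inj hp)).symm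
            (H.nt _ (sub_ne_zero.2 (Ne.symm h)) he)
    · rcases j' with _ | x' <;> rcases k' with _ | y'
      · exact absurd of_i h0'
      · rw [of_r, of_l] at hg
        rw [sq_r, sq_l] at hp
        exact absurd (sub_right_inj.1 (diff (Option.some.inj hg) (Option.some.inj hp))) H.st
      · rw [of_r, of_r] at hg
        exact ⟨by rw [sub_left_inj.1 (Option.some.inj hg)], rfl⟩
      · have h : x' ≠ y' := fun h => h0' (of_eq h)
        rw [of_r, of_fin h] at hg
        by_cases he : y' - x' = e
        · rw [sq_r, sq_e he] at hp; exact absurd hp (by simp)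
        · rw [sq_r, sq_ne he] at hp
          exact absurd (diff (Option.some.inj hg) (Option.some.inj hp)).symm
            (H.ns _ (sub_ne_zero.2 (Ne.symm h)) he)
    · have h : x ≠ y := fun h => h0 (of_eq h)
      have hd := sub_ne_zero.2 (Ne.symm h)
      rcases j' with _ | x' <;> rcases k' with _ | y'
      · exact absurd of_i h0'
      · rw [of_fin h, of_l] at hg
        by_cases he : y - x = e
        · rw [sq_l, sq_e he] at hp; exact absurd hp (by simp)
        · rw [sq_l, sq_ne he] at hp
          exact absurd (diff (Option.some.inj hg) (Option.some.inj hp)) (H.nt _ hd he)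
      · rw [of_fin h, of_r] at hg
        by_cases he : y - x = e
        · rw [sq_r, sq_e he] at hp; exact absurd hp (by simp)
        · rw [sq_r, sq_ne he] at hp
          exact absurd (diff (Option.some.inj hg) (Option.some.inj hp)) (H.ns _ hd he)
      · have h' : x' ≠ y' := fun h => h0' (of_eq h)
        have hd' := sub_ne_zero.2 (Ne.symm h')
        rw [of_fin h, of_fin h'] at hg
        have h3 : y - x = y' - x' := by
          by_cases he : y - x = e <;> by_cases he' : y' - x' = e
          · rw [he, he']
          · rw [sq_e he, sq_ne he'] at hp; exact absurd hp (by simp)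
          · rw [sq_ne he, sq_e he'] at hp; exact absurd hp (by simp)
          · rw [sq_ne he, sq_ne he'] at hp
            exact H.inj _ _ hd hd' he he' (diff (Option.some.inj hg) (Option.some.inj hp))
        have h4 := Option.some.inj hg
        rw [h3] at h4
        have h5 := sub_left_inj.1 h4
        refine ⟨by rw [h5], ?_⟩
        rw [h5] at h3
        rw [sub_left_inj.1 h3]

theorem isMate_of_Mm {z' : V → V} {e' s' t' : V} {z : V → V} {e s t : V}
    (H : MmOK z' e' s' t' z e s t) : IsMate (sqV z' e' s' t') (sqV z e s t) := by
  intro j k j' k' hg hp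
  rcases j with _ | x <;> rcases k with _ | y
  · rcases j' with _ | x' <;> rcases k' with _ | y'
    · exact ⟨rfl, rfl⟩
    · rw [sq_i, sq_l] at hg; exact absurd hg (by simp)
    · rw [sq_i, sq_r] at hg; exact absurd hg (by simp)
    · by_cases he' : y' - x' = e'
      · by_cases he : y' - x' = e
        · exact absurd (he'.symm.trans he) H.ee
        · rw [sq_i, sq_ne he] at hp; exact absurd hp (by simp)
      · rw [sq_i, sq_ne he'] at hg; exact absurd hg (by simp)
  · rcases j' with _ | x' <;> rcases k' with _ | y'
    · rw [sq_i, sq_l] at hg; exact absurd hg (by simp)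
    · rw [sq_l, sq_l] at hg
      exact ⟨rfl, by rw [sub_left_inj.1 (Option.some.inj hg)]⟩
    · rw [sq_l, sq_r] at hg hp
      exact absurd (diff (Option.some.inj hg) (Option.some.inj hp)).symm H.st
    · by_cases he' : y' - x' = e'
      · rw [sq_l, sq_e he'] at hg; exact absurd hg (by simp)
      · by_cases he : y' - x' = e
        · rw [sq_l, sq_e he] at hp; exact absurd hp (by simp)
        · rw [sq_l, sq_ne he'] at hg
          rw [sq_l, sq_ne he] at hp
          exact absurd (diff (Option.some.inj hg) (Option.some.inj hp)).symm (H.nt _ he' he)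
  · rcases j' with _ | x' <;> rcases k' with _ | y'
    · rw [sq_i, sq_r] at hg; exact absurd hg (by simp)
    · rw [sq_r, sq_l] at hg hp
      exact absurd (diff (Option.some.inj hg) (Option.some.inj hp)) H.st
    · rw [sq_r, sq_r] at hg
      exact ⟨by rw [sub_left_inj.1 (Option.some.inj hg)], rfl⟩
    · by_cases he' : y' - x' = e'
      · rw [sq_r, sq_e he'] at hg; exact absurd hg (by simp)
      · by_cases he : y' - x' = e
        · rw [sq_r, sq_e he] at hp; exact absurd hp (by simp)
        · rw [sq_r, sq_ne he'] at hg
          rw [sq_r, sq_ne he] at hp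
          exact absurd (diff (Option.some.inj hg) (Option.some.inj hp)).symm (H.ns _ he' he)
  · by_cases he' : y - x = e'
    · have he : y - x ≠ e := fun he => H.ee (he'.symm.trans he)
      rw [sq_e he'] at hg
      rw [sq_ne he] at hp
      rcases j' with _ | x' <;> rcases k' with _ | y'
      · rw [sq_i] at hp; exact absurd hp (by simp)
      · rw [sq_l] at hg; exact absurd hg (by simp)
      · rw [sq_r] at hg; exact absurd hg (by simp)
      · by_cases he2 : y' - x' = e'
        · have he3 : y' - x' ≠ e := fun he => H.ee (he2.symm.trans he)
          rw [sq_ne he3, he', he2] at hp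
          have h5 := sub_left_inj.1 (Option.some.inj hp)
          refine ⟨by rw [h5], ?_⟩
          have h6 := he'.trans he2.symm
          rw [h5] at h6
          rw [sub_left_inj.1 h6]
        · rw [sq_ne he2] at hg; exact absurd hg (by simp)
    · rcases j' with _ | x' <;> rcases k' with _ | y'
      · rw [sq_i, sq_ne he'] at hg; exact absurd hg (by simp)
      · by_cases he : y - x = e
        · rw [sq_l, sq_e he] at hp; exact absurd hp (by simp)
        · rw [sq_l, sq_ne he'] at hg
          rw [sq_l, sq_ne he] at hp
          exact absurd (diff (Option.some.inj hg) (Option.some.inj hp)) (H.nt _ he' he)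
      · by_cases he : y - x = e
        · rw [sq_r, sq_e he] at hp; exact absurd hp (by simp)
        · rw [sq_r, sq_ne he'] at hg
          rw [sq_r, sq_ne he] at hp
          exact absurd (diff (Option.some.inj hg) (Option.some.inj hp)) (H.ns _ he' he)
      · by_cases he2 : y' - x' = e'
        · rw [sq_ne he', sq_e he2] at hg; exact absurd hg (by simp)
        · rw [sq_ne he', sq_ne he2] at hg
          have h3 : y - x = y' - x' := by
            by_cases he : y - x = e <;> by_cases he3 : y' - x' = e
            · rw [he, he3]
            · rw [sq_e he, sq_ne he3] at hp; exact absurd hp (by simp)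
            · rw [sq_ne he, sq_e he3] at hp; exact absurd hp (by simp)
            · rw [sq_ne he, sq_ne he3] at hp
              exact H.inj _ _ he' he2 he he3 (diff (Option.some.inj hg) (Option.some.inj hp))
          have h4 := Option.some.inj hg
          rw [h3] at h4
          have h5 := sub_left_inj.1 h4
          refine ⟨by rw [h5], ?_⟩
          rw [h5] at h3
          rw [sub_left_inj.1 h3]

end Pool.Agent.Lib.MP_db622c_co.PT
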