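import Pool.Agent.Lib.MP_db622c_co.PT.Defs

/-!
# PT-TISq: the translation invariant Latin square

`sqV z e s t`: `(∞, ∞) ↦ none`, `(∞, y) ↦ some (y - t)`, `(x, ∞) ↦ some (x - s)`,
`(x, y) ↦ none` if `y - x = e`, else `some (x - z (y - x))`.
* row `x`: with `d = y - x`: `none` only for `d = e`; `x - z d = x - z d'` gives `d = d'` (`H.inj`);
  `x - z d = x - s` contradicts `H.ns`.  Row `∞`: clear.
* column `y`: `x = y - d`: `x - z d = y - (z d + d)`: `H.inj'`; `y - (z d + d) = y - t` contradicts
  `H.nt`.  Column `∞`: clear.
* nonsep: the sign of the class `some a` at a finite `x` is `chi1 χ (x - a)`, at `∞` it is `1`; cell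
  `(∞, y)`: `a = y - t`, signs `1`, `chi1 χ t`; cell `(x, ∞)`: `chi1 χ s`, `1`; cell `(x, y)`:
  `chi1 χ (z d)`, `chi1 χ (z d + d)`; class `none`: `1`, `1`.
* mdiag: `(x, x) ↦ some (x - z 0)` as `e ≠ 0`, `(∞, ∞) ↦ none`.
-/

namespace Pool.Agent.Lib.MP_db622c_co.PT

open Pool.Agent.Lib.MP_db622c_co Pool.Agent.Lib.MP_db622c_co.CB

variable {V : Type} [AddCommGroup V] [DecidableEq V]

private theorem fin_e {z : V → V} {e s t : V} {x y : V} (h : y - x = e) :
    sqV z e s t (some x) (some y) = none := by
  show (if y - x = e then none else some (x - z (y - x)) : Option V) = none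
  rw [if_pos h]

private theorem fin_ne {z : V → V} {e s t : V} {x y : V} (h : y - x ≠ e) :
    sqV z e s t (some x) (some y) = some (x - z (y - x)) := by
  show (if y - x = e then none else some (x - z (y - x)) : Option V) = _
  rw [if_neg h]

private theorem inf_r {z : V → V} {e s t : V} {x : V} :
    sqV z e s t (some x) none = some (x - s) := rfl

private theorem inf_l {z : V → V} {e s t : V} {y : V} :
    sqV z e s t none (some y) = some (y - t) := rfl

private theorem inf_i {z : V → V} {e s t : V} :
    sqV z e s t none none = none := rfl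

theorem isLat_sqV {z : V → V} {e s t : V} (H : SqOK z e s t) : IsLat (sqV z e s t) := by
  refine ⟨?_, ?_⟩
  · intro x y y' he
    rcases x with _ | x
    · rcases y with _ | y <;> rcases y' with _ | y'
      · rfl
      · rw [inf_i, inf_l] at he; exact absurd he (by simp)
      · rw [inf_i, inf_l] at he; exact absurd he (by simp)
      · rw [inf_l, inf_l] at he
        rw [sub_left_inj.1 (Option.some.inj he)]
    · have key : ∀ y : V, sqV z e s t (some x) none = sqV z e s t (some x) (some y) → False := by
        intro y hy
        by_cases h : y - x = e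
        · rw [fin_e h, inf_r] at hy; exact absurd hy (by simp)
        · rw [fin_ne h, inf_r] at hy
          exact H.ns _ h (sub_right_inj.1 (Option.some.inj hy)).symm
      rcases y with _ | y <;> rcases y' with _ | y'
      · rfl
      · exact (key _ he).elim
      · exact (key _ he.symm).elim
      · by_cases h : y - x = e <;> by_cases h' : y' - x = e
        · rw [sub_left_inj.1 (h.trans h'.symm)]
        · rw [fin_e h, fin_ne h'] at he; exact absurd he (by simp)
        · rw [fin_ne h, fin_e h'] at he; exact absurd he (by simp)
        · rw [fin_ne h, fin_ne h'] at he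
          have h1 := H.inj _ _ h h' (sub_right_inj.1 (Option.some.inj he))
          rw [sub_left_inj.1 h1]
  · intro x x' y he
    have conv : ∀ x y : V, x - z (y - x) = y - (z (y - x) + (y - x)) := by
      intro x y
      abel
    rcases y with _ | y
    · rcases x with _ | x <;> rcases x' with _ | x'
      · rfl
      · rw [inf_i, inf_r] at he; exact absurd he (by simp)
      · rw [inf_i, inf_r] at he; exact absurd he (by simp)
      · rw [inf_r, inf_r] at he
        rw [sub_left_inj.1 (Option.some.inj he)]
    · have key : ∀ x : V, sqV z e s t none (some y) = sqV z e s t (some x) (some y) → False := by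
        intro x hx
        by_cases h : y - x = e
        · rw [fin_e h, inf_l] at hx; exact absurd hx (by simp)
        · rw [fin_ne h, inf_l, conv] at hx
          exact H.nt _ h (sub_right_inj.1 (Option.some.inj hx)).symm
      rcases x with _ | x <;> rcases x' with _ | x'
      · rfl
      · exact (key _ he).elim
      · exact (key _ he.symm).elim
      · by_cases h : y - x = e <;> by_cases h' : y - x' = e
        · rw [sub_right_inj.1 (h.trans h'.symm)]
        · rw [fin_e h, fin_ne h'] at he; exact absurd he (by simp)
        · rw [fin_ne h, fin_e h'] at he; exact absurd he (by simp)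
        · rw [fin_ne h, fin_ne h', conv, conv] at he
          have h1 := H.inj' _ _ h h' (sub_right_inj.1 (Option.some.inj he))
          rw [sub_right_inj.1 h1]

theorem nonsep_sqV {χ : V → ℤ} {z : V → V} {e s t : V} (H : NonOK χ z e s t)
    (x y : Option V) : SV χ (sqV z e s t x y) x = SV χ (sqV z e s t x y) y := by
  rcases x with _ | x <;> rcases y with _ | y
  · rfl
  · rw [inf_l]
    show (1 : ℤ) = chi1 χ (y - (y - t))
    rw [sub_sub_cancel, H.t1]
  · rw [inf_r]
    show chi1 χ (x - (x - s)) = 1
    rw [sub_sub_cancel, H.s1]
  · by_cases h : y - x = e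
    · rw [fin_e h]
      rfl
    · rw [fin_ne h]
      show chi1 χ (x - (x - z (y - x))) = chi1 χ (y - (x - z (y - x)))
      have h1 : y - (x - z (y - x)) = z (y - x) + (y - x) := by abel
      rw [sub_sub_cancel, h1, H.fin _ h]

theorem mdiag_sqV {z : V → V} {e s t : V} (H : SqOK z e s t) (x y : Option V)
    (h : sqV z e s t x x = sqV z e s t y y) : x = y := by
  have hd : ∀ x : V, sqV z e s t (some x) (some x) = some (x - z 0) := by
    intro x
    have h1 : x - x ≠ e := by
      rw [sub_self]
      exact H.e0.symm
    rw [fin_ne h1, sub_self]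
  rcases x with _ | x <;> rcases y with _ | y
  · rfl
  · rw [inf_i, hd] at h; exact absurd h (by simp)
  · rw [inf_i, hd] at h; exact absurd h (by simp)
  · rw [hd, hd] at h
    rw [sub_left_inj.1 (Option.some.inj h)]

end Pool.Agent.Lib.MP_db622c_co.PT
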