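import Pool.Agent.Lib.MP_db622c_co.PT.TIH
import Pool.Agent.Lib.MP_db622c_co.PT.TIG
import Pool.Agent.Lib.MP_db622c_co.PT.TISq
import Pool.Agent.Lib.MP_db622c_co.PT.TIM
import Pool.Agent.Lib.MP_db622c_co.PT.TIC

/-!
# PT-TIEnd: left factors from starters and squares over a group

Assembly: rows `Rw V`, columns `Option V`, classes `Rw V`.
-/

namespace Pool.Agent.Lib.MP_db622c_co.PT

open Pool.Agent.Lib.MP_db622c_co Pool.Agent.Lib.MP_db622c_co.CB

variable {V : Type} [AddCommGroup V] [DecidableEq V] [Fintype V]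

/-- all conditions for a left factor -/
structure JSD (χ : V → ℤ) (x0 : V) (τ : V → V) (x1 : V) (σ : V → V) (z : V → V) (e s t : V)
    (x2 : V) (τ2 : V → V) (ω : V → Bool) : Prop where
  chi : ChiOK χ
  g : StOK x0 τ
  sep : SepOK χ x0 τ
  h : StOK x1 σ
  gh : OrOK x0 τ x1 σ
  M : SqOK z e s t
  non : NonOK χ z e s t
  h2 : StOK x2 τ2
  cf : CfOK x2 τ2 ω z e s t

theorem js_of {χ : V → ℤ} {x0 : V} {τ : V → V} {x1 : V} {σ : V → V} {z : V → V} {e s t : V}
    {x2 : V} {τ2 : V → V} {ω : V → Bool} (D : JSD χ x0 τ x1 σ z e s t x2 τ2 ω) :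
    JS (SV χ) (ofV x0 τ) (ofV x1 σ) (sqV z e s t) (ofV x2 τ2) (orV ω) where
  isH := isH_SV D.chi
  of_g := isOF_ofV D.g
  diag := diag_ofV x0 τ
  split := split_ofV D.sep
  of_h := isOF_ofV D.h
  orth := isOrth_ofV D.g D.h D.gh
  lat := isLat_sqV D.M
  nonsep := nonsep_sqV D.non
  mdiag := mdiag_sqV D.M
  of_h2 := isOF_ofV D.h2
  anti := anti_orV D.cf
  conf := conf_orV D.cf

private theorem card_opt : Fintype.card (Option V) = Fintype.card V + 1 := Fintype.card_option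

private theorem card_rw : Fintype.card (Rw V) = Fintype.card V + 1 := Fintype.card_option

theorem hasJS_of {χ : V → ℤ} {x0 : V} {τ : V → V} {x1 : V} {σ : V → V} {z : V → V} {e s t : V}
    {x2 : V} {τ2 : V → V} {ω : V → Bool} (D : JSD χ x0 τ x1 σ z e s t x2 τ2 ω) :
    HasJS (Fintype.card V + 1) :=
  ⟨Rw V, Option V, Rw V, inferInstance, inferInstance, inferInstance, inferInstance,
    inferInstance, _, _, _, _, _, _, card_rw, card_opt, card_rw, js_of D⟩

theorem hasJSP_of {χ : V → ℤ} {x0 : V} {τ : V → V} {x1 : V} {σ : V → V} {z : V → V} {e s t : V}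
    {x2 : V} {τ2 : V → V} {ω : V → Bool} (D : JSD χ x0 τ x1 σ z e s t x2 τ2 ω)
    {zg : V → V} {eg sg tg : V} {zm : V → V} {em sm tm : V}
    (Hg : SqOK zg eg sg tg) (Hgm : MgOK x0 τ zg eg sg tg)
    (Hm : SqOK zm em sm tm) (Hmm : MmOK z e s t zm em sm tm) :
    HasJSP (Fintype.card V + 1) :=
  ⟨Rw V, Option V, Rw V, Rw V, inferInstance, inferInstance, inferInstance, inferInstance,
    inferInstance, inferInstance, _, _, _, _, _, _, _, _, card_rw, card_opt, card_rw, card_rw,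
    js_of D, isLat_sqV Hg, isMate_of_Mg Hg Hgm, isLat_sqV Hm, isMate_of_Mm Hmm⟩

end Pool.Agent.Lib.MP_db622c_co.PT
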