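import Pool.Agent.Lib.MP_db622c_co.PT.Defs

/-!
# PT-TIH: the translation invariant Hadamard matrix

`SV χ none _ = 1`, `SV χ (some a) none = 1`, `SV χ (some a) (some x) = chi1 χ (x - a)`,
`chi1 χ 0 = -1`, `chi1 χ z = χ z` for `z ≠ 0`.  (`0 : Rw V` is `none`.)
* `sum_chi`: `∑ χ = 0`, from `χ (-x) = - χ x` (reindex by `x ↦ -x`).
* sign: `H.one`.  one: by definition.
* orth, rows `none` and `some a`: `1 + ∑ x, chi1 χ (x - a) = 1 + ∑ z, chi1 χ z`
  `= 1 + (-1 + ∑ χ) = 0`  (`chi1 χ z = χ z + (if z = 0 then -1 else 0)`, `χ 0 = 0`).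
* orth, rows `some a`, `some b`, `a ≠ b`: `1 + ∑ x, chi1 χ (x - a) * chi1 χ (x - b)`;
  expanding `chi1` the sum is `∑ x, χ (x - a) * χ (x - b) - χ (b - a) - χ (a - b) + 0`, the first sum
  is `∑ z, χ z * χ (z + (a - b)) = -1` and `χ (b - a) + χ (a - b) = 0`.
* sums over `Option V`: `Fintype.sum_option`.  (`Rw V` is `Option V`: use `match`/`rcases`.)
-/

namespace Pool.Agent.Lib.MP_db622c_co.PT

open Pool.Agent.Lib.MP_db622c_co Pool.Agent.Lib.MP_db622c_co.CB

variable {V : Type} [AddCommGroup V] [DecidableEq V] [Fintype V]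

private theorem sum_chi {χ : V → ℤ} (H : ChiOK χ) (a : V) : ∑ x : V, χ (x - a) = 0 := by
  have h0 : ∑ x : V, χ x = 0 := by
    have h1 : ∑ x : V, χ x = ∑ x : V, χ (-x) := (Equiv.sum_comp (Equiv.neg V) χ).symm
    rw [Finset.sum_congr rfl (fun x _ => H.neg x), Finset.sum_neg_distrib] at h1
    linarith
  rw [← h0]
  exact Equiv.sum_comp (Equiv.subRight a) χ

private theorem chi1_eq {χ : V → ℤ} (H : ChiOK χ) (z : V) :
    chi1 χ z = χ z - (if z = 0 then 1 else 0) := by
  unfold chi1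
  by_cases h : z = 0
  · rw [if_pos h, if_pos h, h, H.zero]
    norm_num
  · rw [if_neg h, if_neg h, sub_zero]

private theorem sum_ind (a : V) (f : V → ℤ) :
    ∑ x : V, f x * (if x - a = 0 then 1 else 0) = f a := by
  rw [Finset.sum_eq_single a]
  · rw [sub_self, if_pos rfl, mul_one]
  · intro b _ hb
    rw [if_neg (sub_ne_zero.2 hb), mul_zero]
  · intro h
    exact absurd (Finset.mem_univ a) h

private theorem sum1 {χ : V → ℤ} (H : ChiOK χ) (a : V) : ∑ x : V, chi1 χ (x - a) = -1 := by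
  have h1 : ∀ x : V, chi1 χ (x - a) = χ (x - a) - 1 * (if x - a = 0 then 1 else 0) := by
    intro x
    rw [chi1_eq H, one_mul]
  rw [Finset.sum_congr rfl (fun x _ => h1 x), Finset.sum_sub_distrib, sum_chi H,
    sum_ind a (fun _ => 1)]
  norm_num

private theorem sum2 {χ : V → ℤ} (H : ChiOK χ) (a b : V) (hab : a ≠ b) :
    ∑ x : V, chi1 χ (x - a) * chi1 χ (x - b) = -1 := by
  have h1 : ∀ x : V, chi1 χ (x - a) * chi1 χ (x - b)
      = χ (x - a) * χ (x - b) - χ (x - b) * (if x - a = 0 then 1 else 0)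
        - χ (x - a) * (if x - b = 0 then 1 else 0) := by
    intro x
    rw [chi1_eq H, chi1_eq H]
    by_cases ha : x - a = 0
    · have hb : x - b ≠ 0 := by
        intro hb
        exact hab ((sub_eq_zero.1 ha).symm.trans (sub_eq_zero.1 hb))
      rw [if_pos ha, if_neg hb]
      ring
    · rw [if_neg ha]
      ring
  have h2 : ∑ x : V, χ (x - a) * χ (x - b) = -1 := by
    have hc : a - b ≠ 0 := sub_ne_zero.2 hab
    rw [← H.corr (a - b) hc,
      ← Equiv.sum_comp (Equiv.subRight a) (fun z => χ z * χ (z + (a - b)))]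
    refine Finset.sum_congr rfl (fun x _ => ?_)
    show χ (x - a) * χ (x - b) = χ (x - a) * χ (x - a + (a - b))
    rw [sub_add_sub_cancel]
  rw [Finset.sum_congr rfl (fun x _ => h1 x), Finset.sum_sub_distrib, Finset.sum_sub_distrib, h2,
    sum_ind a (fun x => χ (x - b)), sum_ind b (fun x => χ (x - a))]
  have h3 := H.neg (a - b)
  rw [neg_sub] at h3
  rw [h3]
  ring

theorem isH_SV {χ : V → ℤ} (H : ChiOK χ) : IsH (SV χ) := by
  refine ⟨?_, ?_, ?_⟩
  · intro a j
    rcases a with _ | a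
    · exact Or.inl rfl
    · rcases j with _ | x
      · exact Or.inl rfl
      · show chi1 χ (x - a) = 1 ∨ chi1 χ (x - a) = -1
        unfold chi1
        split_ifs with h
        · exact Or.inr rfl
        · exact H.one _ h
  · intro j
    rfl
  · intro a b hab
    rw [Fintype.sum_option]
    rcases a with _ | a <;> rcases b with _ | b
    · exact absurd rfl hab
    · show (1 : ℤ) * 1 + ∑ x : V, 1 * chi1 χ (x - b) = 0
      simp only [one_mul]
      rw [sum1 H]
      norm_num
    · show (1 : ℤ) * 1 + ∑ x : V, chi1 χ (x - a) * 1 = 0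
      simp only [mul_one]
      rw [sum1 H]
      norm_num
    · show (1 : ℤ) * 1 + ∑ x : V, chi1 χ (x - a) * chi1 χ (x - b) = 0
      rw [sum2 H a b (fun h => hab (congrArg some h))]
      norm_num

end Pool.Agent.Lib.MP_db622c_co.PT
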