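import Pool.Agent.Lib.MP_db622c_co.PT.Defs

/-!
# PT-Tens: the tensor product of two normalised Hadamard matrices

`SS S S' (a, b) (x, y) = S a x * S' b y`.
* sign, one: from `hS.sign`, `hS'.sign`, `hS.one`, `hS'.one` (`(0 : A × B) = (0, 0)`).
* orth: the sum over `J × Y` is a product of two sums (`Fintype.sum_prod_type`,
  `Finset.sum_mul_sum`; compare `isH_tens` in `CB/Tens.lean`); `a ≠ b` in `A × B` means that the
  first or the second components differ, so one of the sums is `0`.
-/

namespace Pool.Agent.Lib.MP_db622c_co.PT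

open Pool.Agent.Lib.MP_db622c_co Pool.Agent.Lib.MP_db622c_co.CB

variable {A J B Y : Type} [Zero A] [Zero B] [Fintype J] [Fintype Y]

theorem isH_SS {S : A → J → ℤ} {S' : B → Y → ℤ} (hS : IsH S) (hS' : IsH S') :
    IsH (SS S S') := by
  refine ⟨?_, ?_, ?_⟩
  · intro a x
    unfold SS
    rcases hS.sign a.1 x.1 with h | h <;> rcases hS'.sign a.2 x.2 with h' | h' <;>
      simp [h, h']
  · intro x
    show S 0 x.1 * S' 0 x.2 = 1
    rw [hS.one, hS'.one, one_mul]
  · intro a b hab
    have h1 : ∀ x : J × Y, SS S S' a x * SS S S' b x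
        = (S a.1 x.1 * S b.1 x.1) * (S' a.2 x.2 * S' b.2 x.2) := by
      intro x
      unfold SS
      ring
    rw [Finset.sum_congr rfl (fun x _ => h1 x), Fintype.sum_prod_type,
      ← Finset.sum_mul_sum (s := Finset.univ) (t := Finset.univ)
        (f := fun x : J => S a.1 x * S b.1 x) (g := fun y : Y => S' a.2 y * S' b.2 y)]
    by_cases h : a.1 = b.1
    · have h2 : a.2 ≠ b.2 := fun h2 => hab (Prod.ext h h2)
      rw [hS'.orth _ _ h2, mul_zero]
    · rw [hS.orth _ _ h, zero_mul]

end Pool.Agent.Lib.MP_db622c_co.PT
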